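import Pool.Agent.D0H57.PR.Loop
import Pool.Agent.R562.PR.Non

set_option autoImplicit false

/-!
# The loop

The state is `(p, m, l, x, b, S)`: `l` runs through the numbers up to `Y` (the largest `y` with
`y ^ d ≤ p ^ c`), `m` is the part of `p - 1` composed of primes `≥ l`; if `l` divides `m`, then `x` runs
through the numbers up to `Y` and `b` is the best power found so far; at the end `b` is added to the
list `S`.
-/

namespace Pool.Agent.D0H57.PR

open Pool.Agent.NPC Pool.Agent.H595R2.PR Pool.Agent.R562.PR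

/-- the states -/
abbrev St : Type := ℕ × ℕ × ℕ × ℕ × ℕ × List ℕ

/-- the body of the loop -/
def stp (c d : ℕ) (s : St) : St :=
  if s.2.2.1 ^ d ≤ s.1 ^ c then
    if s.2.1 % s.2.2.1 = 0 then
      if s.2.2.2.1 ^ d ≤ s.1 ^ c then
        (s.1, s.2.1, s.2.2.1, s.2.2.2.1 + 1,
          if better s.1 s.1.size s.2.2.1 s.2.2.2.2.1
              (pw s.1 s.2.2.2.1 (strip s.2.2.1 s.1.size (s.1 - 1))) then
            pw s.1 s.2.2.2.1 (strip s.2.2.1 s.1.size (s.1 - 1)) else s.2.2.2.2.1, s.2.2.2.2.2)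
      else (s.1, strip s.2.2.1 s.1.size s.2.1, s.2.2.1 + 1, 1, md s.1 1,
        s.2.2.2.2.1 :: s.2.2.2.2.2)
    else (s.1, s.2.1, s.2.2.1 + 1, 1, md s.1 1, s.2.2.2.2.2)
  else s

/-- the first state -/
def ini (p : ℕ) : St := (p, p - 1, 2, 1, md p 1, [])

/-- the test -/
def fin (c d : ℕ) (s : St) : Bool := decide (s.1 ^ c < s.2.2.1 ^ d)

/-- the output -/
def outp (A C : ℕ) (s : St) : List ℕ :=
  candsS C s.1 (withSmall (s.1.size ^ A) ((s.1 - 1) :: s.2.2.2.2.2))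

section poly

variable {α : Type} [TEnc α]

theorem poly_powc {x : α → ℕ} (hx : NPC.Poly x) : ∀ d : ℕ, NPC.Poly (fun a => x a ^ d)
  | 0 => (NPC.Poly.const 1).congr fun a => (pow_zero _).symm
  | d + 1 => (NPC.Poly.mul (poly_powc hx d) hx).congr fun a => (pow_succ _ _).symm

theorem poly_ini : NPC.Poly ini :=
  NPC.Poly.pair NPC.Poly.id (NPC.Poly.pair (NPC.Poly.sub NPC.Poly.id (NPC.Poly.const 1))
    (NPC.Poly.pair (NPC.Poly.const 2) (NPC.Poly.pair (NPC.Poly.const 1)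
      (NPC.Poly.pair (NPC.H595POL.poly_md NPC.Poly.id (NPC.Poly.const 1)) (NPC.Poly.const [])))))

theorem h1 : NPC.Poly (fun s : St => s.1) := NPC.Poly.fst NPC.Poly.id
theorem h2 : NPC.Poly (fun s : St => s.2.1) := NPC.Poly.fst (NPC.Poly.snd NPC.Poly.id)
theorem h3 : NPC.Poly (fun s : St => s.2.2.1) :=
  NPC.Poly.fst (NPC.Poly.snd (NPC.Poly.snd NPC.Poly.id))
theorem h4 : NPC.Poly (fun s : St => s.2.2.2.1) :=
  NPC.Poly.fst (NPC.Poly.snd (NPC.Poly.snd (NPC.Poly.snd NPC.Poly.id)))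
theorem h5 : NPC.Poly (fun s : St => s.2.2.2.2.1) :=
  NPC.Poly.fst (NPC.Poly.snd (NPC.Poly.snd (NPC.Poly.snd (NPC.Poly.snd NPC.Poly.id))))
theorem h6 : NPC.Poly (fun s : St => s.2.2.2.2.2) :=
  NPC.Poly.snd (NPC.Poly.snd (NPC.Poly.snd (NPC.Poly.snd (NPC.Poly.snd NPC.Poly.id))))

theorem poly_stp (c d : ℕ) : NPC.Poly (stp c d) := by
  have hn : UPoly (fun s : St => s.1.size) := NPC.H595POL.upoly_size.comp h1
  have hst : NPC.Poly (fun s : St => strip s.2.2.1 s.1.size (s.1 - 1)) :=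
    NPC.H595POL.poly_strip h3 hn (NPC.Poly.sub h1 (NPC.Poly.const 1))
  have hpw : NPC.Poly (fun s : St => pw s.1 s.2.2.2.1 (strip s.2.2.1 s.1.size (s.1 - 1))) :=
    NPC.H595POL.poly_pw h1 h4 hst
  refine NPC.Poly.ite (NPC.Poly.decide_le (poly_powc h3 d) (poly_powc h1 c)) ?_ NPC.Poly.id
  refine NPC.Poly.ite (NPC.Poly.decide_eq (NPC.Poly.mod h2 h3) (NPC.Poly.const 0)) ?_ ?_
  · refine NPC.Poly.ite (NPC.Poly.decide_le (poly_powc h4 d) (poly_powc h1 c)) ?_ ?_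
    · refine NPC.Poly.pair h1 (NPC.Poly.pair h2 (NPC.Poly.pair h3 (NPC.Poly.pair
        (NPC.Poly.succ h4) (NPC.Poly.pair ?_ h6))))
      exact NPC.Poly.ite (p := fun s : St => better s.1 s.1.size s.2.2.1 s.2.2.2.2.1
              (pw s.1 s.2.2.2.1 (strip s.2.2.1 s.1.size (s.1 - 1))) = true)
        (NPC.Poly.decide_bool (NPC.H595POL.poly_better h1 hn h3 h5 hpw)) hpw h5
    · exact NPC.Poly.pair h1 (NPC.Poly.pair (NPC.H595POL.poly_strip h3 hn h2)
        (NPC.Poly.pair (NPC.Poly.succ h3) (NPC.Poly.pair (NPC.Poly.const 1) (NPC.Poly.pair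
          (NPC.H595POL.poly_md h1 (NPC.Poly.const 1)) (NPC.Poly.cons h5 h6)))))
  · exact NPC.Poly.pair h1 (NPC.Poly.pair h2
        (NPC.Poly.pair (NPC.Poly.succ h3) (NPC.Poly.pair (NPC.Poly.const 1) (NPC.Poly.pair
          (NPC.H595POL.poly_md h1 (NPC.Poly.const 1)) h6))))

theorem poly_fin (c d : ℕ) : NPC.Poly (fin c d) :=
  NPC.Poly.decide_lt (poly_powc h1 c) (poly_powc h3 d)

theorem poly_outp (A C : ℕ) : NPC.Poly (outp A C) :=
  NPC.R562POL.poly_candsS C h1 (poly_withSmall ((NPC.H595POL.upoly_sizepow A).comp h1)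
    (NPC.Poly.cons (NPC.Poly.sub h1 (NPC.Poly.const 1)) h6))

end poly

end Pool.Agent.D0H57.PR
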