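import Pool.Agent.H471R4.BW.BFM
import Pool.Agent.H471R4.BW.BIN
import Pool.Agent.H471R4.BW.COR
import Pool.Agent.H471R4.BW.CRD
import Pool.Agent.H471R4.BW.CSL
import Pool.Agent.H471R4.BW.HOL
import Pool.Agent.H471R4.BW.Hch
import Pool.Agent.H471R4.BW.MOM
import Pool.Agent.H471R4.BW.NU1
import Pool.Agent.H471R4.BW.NU2b
import Pool.Agent.H471R4.BW.NV0
import Pool.Agent.H471R4.BW.NV1
import Pool.Agent.H471R4.BW.SHF
import Pool.Agent.H471R4.BW.SMO
import Pool.Agent.H471R4.BW.TUP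
import Pool.Agent.H471R4.BW.WEL
import Pool.Agent.H471R4.BW.VIN
import Pool.Agent.H471R4.BW.SNG

set_option autoImplicit false

/-!
# Characters of prime order `t` which are trivial on the primes up to `y`

`y ≤ q ^ (1 / (4 exp (1 - 1 / t)) + ε)` by Burgess's bound and Vinogradov's trick.
-/

namespace Pool.Agent.D0H57.PR

open Finset Pool.Agent.H471R4.BW

open Classical in
/-- the numbers up to `X` with `χ n ≠ 1` have a prime factor larger than `y` with `χ l ≠ 1` -/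
theorem count_ge (N : ℕ) (χ : DirichletCharacter ℂ N) (y X : ℕ)
    (hy : ∀ l : ℕ, l.Prime → l ≤ y → χ (l : ZMod N) = 1) :
    (X : ℝ) * (1 - badSum N χ y X) ≤ ((((Icc 1 X).filter fun m : ℕ => χ (m : ZMod N) = 1).card : ℕ) : ℝ) := by
  set L := (Ioc y X).filter (fun l : ℕ => l.Prime ∧ χ (l : ZMod N) ≠ 1) with hL
  have hpt : ∀ m ∈ Icc 1 X, (1 : ℝ) - ((L.filter fun l => l ∣ m).card : ℝ) ≤
      if χ (m : ZMod N) = 1 then (1 : ℝ) else 0 := by
    intro m hm
    have hm1 := (mem_Icc.1 hm).1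
    have hm2 := (mem_Icc.1 hm).2
    by_cases h1 : χ (m : ZMod N) = 1
    · rw [if_pos h1]
      have : (0 : ℝ) ≤ ((L.filter fun l => l ∣ m).card : ℝ) := Nat.cast_nonneg _
      linarith
    · rw [if_neg h1]
      have hex : ∃ l : ℕ, l.Prime ∧ l ∣ m ∧ χ (l : ZMod N) ≠ 1 := by
        by_contra hcon
        push Not at hcon
        exact h1 (vin_one N χ m (by omega) hcon)
      obtain ⟨l, hl, hd, hne⟩ := hex
      have hlm : l ∈ L.filter fun l => l ∣ m := by
        rw [mem_filter, hL, mem_filter, mem_Ioc]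
        refine ⟨⟨⟨?_, ?_⟩, hl, hne⟩, hd⟩
        · by_contra hc
          exact hne (hy l hl (by omega))
        · exact (Nat.le_of_dvd (by omega) hd).trans hm2
      have hc : (1 : ℝ) ≤ ((L.filter fun l => l ∣ m).card : ℝ) := by
        exact_mod_cast Finset.card_pos.2 ⟨l, hlm⟩
      linarith
  have hsum := sum_le_sum hpt
  rw [← Finset.sum_filter, Finset.sum_const, nsmul_eq_mul, mul_one] at hsum
  have hcount : (∑ m ∈ Icc 1 X, ((L.filter fun l => l ∣ m).card : ℝ)) ≤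
      X * badSum N χ y X := by
    have e1 : (∑ m ∈ Icc 1 X, ((L.filter fun l => l ∣ m).card : ℝ)) =
        ∑ l ∈ L, (((Icc 1 X).filter fun m => l ∣ m).card : ℝ) := by
      simp only [Finset.card_filter, Nat.cast_sum]
      rw [sum_comm]
    rw [e1]
    unfold badSum
    rw [mul_sum]
    refine sum_le_sum fun l _ => ?_
    have hcard : ((Icc 1 X).filter fun m => l ∣ m).card = X / l := by
      have h := Nat.Ioc_filter_dvd_card_eq_div X l
      rw [← h]
      congr 1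
    rw [hcard]
    have := @Nat.cast_div_le ℝ _ _ _ X l
    calc ((X / l : ℕ) : ℝ) ≤ (X : ℝ) / l := this
      _ = X * (1 / (l : ℝ)) := by ring
  have htot : (∑ m ∈ Icc 1 X, ((1 : ℝ) - ((L.filter fun l => l ∣ m).card : ℝ))) =
      X - ∑ m ∈ Icc 1 X, ((L.filter fun l => l ∣ m).card : ℝ) := by
    rw [sum_sub_distrib]
    simp
  rw [htot] at hsum
  nlinarith [hsum, hcount]

open Classical in
/-- the sum over the powers of a character of order `t` counts the numbers with `χ n = 1` -/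
theorem count_eq {N t : ℕ} (hN : N.Prime) (ht : t.Prime) (χ : DirichletCharacter ℂ N)
    (hχ : χ ^ t = 1) (X : ℕ) (hX : X < N) :
    ((((Icc 1 X).filter fun m : ℕ => χ (m : ZMod N) = 1).card : ℕ) : ℂ) * t =
      X + ∑ j ∈ Ico 1 t, shortSum N (χ ^ j) X := by
  have hne : ∀ m ∈ Icc 1 X, IsUnit ((m : ℕ) : ZMod N) := by
    intro m hm
    rw [mem_Icc] at hm
    rw [ZMod.isUnit_iff_coprime]
    exact (Nat.Coprime.symm ((Nat.Prime.coprime_iff_not_dvd hN).2 fun hd => by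
      have := Nat.le_of_dvd (by omega) hd
      omega))
  have h1 : ∀ m ∈ Icc 1 X, (if χ (m : ZMod N) = 1 then (t : ℂ) else 0) =
      ∑ j ∈ range t, χ (m : ZMod N) ^ j := by
    intro m hm
    have hz : χ (m : ZMod N) ^ t = 1 := by
      rw [← MulChar.pow_apply' χ ht.ne_zero, hχ]
      exact MulChar.one_apply (hne m hm)
    by_cases h : χ (m : ZMod N) = 1
    · rw [if_pos h, h]
      simp
    · rw [if_neg h, geom_sum_eq h, hz]
      simp
  have h2 : ((((Icc 1 X).filter fun m : ℕ => χ (m : ZMod N) = 1).card : ℕ) : ℂ) * t =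
      ∑ m ∈ Icc 1 X, (if χ (m : ZMod N) = 1 then (t : ℂ) else 0) := by
    rw [← Finset.sum_filter, Finset.sum_const, nsmul_eq_mul]
  rw [h2, sum_congr rfl h1, sum_comm, Finset.range_eq_Ico, Finset.sum_eq_sum_Ico_succ_bot ht.pos]
  congr 1
  · simp
  · refine sum_congr rfl fun j hj => ?_
    rw [mem_Ico] at hj
    unfold shortSum
    refine sum_congr rfl fun m _ => ?_
    rw [MulChar.pow_apply' χ (by omega)]

theorem bfm' : BFM := bfm (bin (mom tup) nu1 nu2b shf hol)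

theorem csl' : CSL := csl (wel (crd (cor (nv1 nv0))))

/-- The sum of `1 / l` over the primes `y < l ≤ X` with `χ l ≠ 1` is at least `1 - 1 / t - δ`. -/
theorem bad_ge (t : ℕ) (ht : t.Prime) (η δ : ℝ) (hη : 0 < η) (hδ : 0 < δ) :
    ∃ N0 : ℕ, ∀ N : ℕ, N0 ≤ N → N.Prime → t ∣ N - 1 → ∀ χ : DirichletCharacter ℂ N, χ ≠ 1 →
      χ ^ t = 1 → ∀ X y : ℕ, (N : ℝ) ^ (1 / 4 + η) ≤ X → (X : ℝ) ≤ Real.sqrt N →
        (∀ l : ℕ, l.Prime → l ≤ y → χ (l : ZMod N) = 1) → 1 - 1 / (t : ℝ) - δ ≤ badSum N χ y X := by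
  classical
  obtain ⟨K, hK, hF⟩ := csl' t ht
  obtain ⟨N0, hN0⟩ := bfm' η δ 1 K hη hδ one_pos hK
  refine ⟨max N0 4, fun N hN hNp htN χ hχ1 hχt X y hX1 hX2 hy => ?_⟩
  haveI : NeZero N := ⟨hNp.ne_zero⟩
  have hN4 : 4 ≤ N := le_of_max_le_right hN
  have hNr : (4 : ℝ) ≤ N := by exact_mod_cast hN4
  have hNpos : (0 : ℝ) < N := by linarith
  have ht0 : (0 : ℝ) < t := by exact_mod_cast ht.pos
  have hXN : X < N := by
    have h1 : Real.sqrt N < N := by
      rw [Real.sqrt_lt' hNpos]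
      nlinarith
    exact_mod_cast lt_of_le_of_lt hX2 h1
  have hXpos : (0 : ℝ) < X := lt_of_lt_of_le (Real.rpow_pos_of_pos hNpos _) hX1
  -- the short sums
  have hshort : ∀ j ∈ Ico 1 t, ‖shortSum N (χ ^ j) X‖ ≤ δ * X := by
    intro j hj
    rw [mem_Ico] at hj
    have hne : χ ^ j ≠ 1 := by
      intro h
      have h1 : orderOf χ ∣ j := orderOf_dvd_of_pow_eq_one h
      haveI : Fact t.Prime := ⟨ht⟩
      have h2 : orderOf χ = t := orderOf_eq_prime hχt hχ1
      rw [h2] at h1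
      have := Nat.le_of_dvd (by omega) h1
      omega
    have hpt : (χ ^ j) ^ t = 1 := by rw [← pow_mul, mul_comm, pow_mul, hχt, one_pow]
    exact hN0 N (le_of_max_le_left hN) (χ ^ j) (hF 1 N hNp htN le_rfl (χ ^ j) hne hpt) X hX1 hX2
  have h1 := count_eq hNp ht χ hχt X hXN
  have h2 := count_ge N χ y X hy
  set c : ℕ := ((Icc 1 X).filter fun m : ℕ => χ (m : ZMod N) = 1).card with hc
  have h3 : (c : ℝ) * t ≤ X + (t - 1) * (δ * X) := by
    have h4 : ‖((c : ℕ) : ℂ) * t‖ = (c : ℝ) * t := by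
      rw [norm_mul, Complex.norm_natCast, Complex.norm_natCast]
    rw [← h4, h1]
    refine (norm_add_le _ _).trans ?_
    rw [Complex.norm_natCast]
    have h5 : ‖∑ j ∈ Ico 1 t, shortSum N (χ ^ j) X‖ ≤ (t - 1) * (δ * X) := by
      refine (norm_sum_le _ _).trans ((sum_le_sum hshort).trans ?_)
      rw [sum_const, Nat.card_Ico, nsmul_eq_mul, Nat.cast_sub ht.one_le, Nat.cast_one]
    linarith
  have h6 : (X : ℝ) * (1 - badSum N χ y X) * t ≤ X + (t - 1) * (δ * X) :=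
    (mul_le_mul_of_nonneg_right h2 ht0.le).trans h3
  have h7 : (X : ℝ) * ((1 - badSum N χ y X) * t) ≤ X * (1 + t * δ) := by nlinarith
  have h8 : (1 - badSum N χ y X) * t ≤ 1 + t * δ := le_of_mul_le_mul_left h7 hXpos
  have h9 : 1 - badSum N χ y X ≤ 1 / t + δ := by
    have : (1 - badSum N χ y X) ≤ (1 + t * δ) / t := by rwa [le_div_iff₀ ht0]
    calc 1 - badSum N χ y X ≤ (1 + t * δ) / t := this
      _ = 1 / t + δ := by field_simp
  linarith

/-- the exponent -/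
noncomputable def ex (t : ℕ) : ℝ := 1 / (4 * Real.exp (1 - 1 / (t : ℝ)))

theorem ex_pos (t : ℕ) : 0 < ex t := by unfold ex; positivity

theorem rho (t : ℕ) (ht : t.Prime) (ε : ℝ) (hε : 0 < ε) :
    Real.log ((1 / 4 + 2 * (ε / 4)) / (ex t + ε)) < 1 - 1 / (t : ℝ) := by
  have ht2 : (2 : ℝ) ≤ t := by exact_mod_cast ht.two_le
  have h0 : 0 < 1 - 1 / (t : ℝ) := by
    have : 1 / (t : ℝ) ≤ 1 / 2 := one_div_le_one_div_of_le (by norm_num) ht2
    linarith
  have hs : 1 < Real.exp (1 - 1 / (t : ℝ)) := Real.one_lt_exp_iff.mpr h0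
  have hs0 : 0 < Real.exp (1 - 1 / (t : ℝ)) := Real.exp_pos _
  unfold ex
  rw [Real.log_lt_iff_lt_exp (by positivity), div_lt_iff₀ (by positivity)]
  have e1 : Real.exp (1 - 1 / (t : ℝ)) * (1 / (4 * Real.exp (1 - 1 / (t : ℝ))) + ε) =
      1 / 4 + Real.exp (1 - 1 / (t : ℝ)) * ε := by
    field_simp
  rw [e1]
  nlinarith [mul_pos (sub_pos.mpr hs) hε]

/-- Characters of order `t` modulo `N` which are trivial on all primes up to `y`. -/
theorem order_t (t : ℕ) (ht : t.Prime) (ε0 : ℝ) (hε0 : 0 < ε0) :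
    ∃ N0 : ℕ, ∀ N : ℕ, N0 ≤ N → N.Prime → t ∣ N - 1 → ∀ χ : DirichletCharacter ℂ N, χ ≠ 1 →
      χ ^ t = 1 → ∀ y : ℕ, (∀ l : ℕ, l.Prime → l ≤ y → χ (l : ZMod N) = 1) →
        (y : ℝ) ≤ (N : ℝ) ^ (ex t + ε0) := by
  have ht2 : (2 : ℝ) ≤ t := by exact_mod_cast ht.two_le
  have h0 : 1 / 2 ≤ 1 - 1 / (t : ℝ) := by
    have : 1 / (t : ℝ) ≤ 1 / 2 := one_div_le_one_div_of_le (by norm_num) ht2
    linarith
  obtain ⟨ε, hεdef⟩ : ∃ ε, ε = min ε0 (1 / 16) := ⟨_, rfl⟩
  have hε : 0 < ε := by rw [hεdef]; exact lt_min hε0 (by norm_num)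
  have hεle : ε ≤ ε0 := by rw [hεdef]; exact min_le_left _ _
  have hε16 : ε ≤ 1 / 16 := by rw [hεdef]; exact min_le_right _ _
  have hrho := rho t ht ε hε
  obtain ⟨b, hb⟩ : ∃ b, b = ex t + ε := ⟨_, rfl⟩
  have hb0 : 0 < b := by rw [hb]; have := ex_pos t; linarith
  rw [← hb] at hrho
  obtain ⟨γ, hγ⟩ : ∃ γ, γ = 1 - 1 / (t : ℝ) - Real.log ((1 / 4 + 2 * (ε / 4)) / b) := ⟨_, rfl⟩
  have hγ0 : 0 < γ := by rw [hγ]; linarith
  obtain ⟨C, hC0, hC⟩ := Pool.Agent.Helper923.HMertens.mertens_ratio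
  obtain ⟨N1, hN1⟩ := bad_ge t ht (ε / 4) (min (γ / 3) (1 / 4)) (by positivity)
    (lt_min (by positivity) (by norm_num))
  obtain ⟨L0, hL0⟩ : ∃ L0 : ℝ, Real.log 2 / (ε / 4) ≤ L0 ∧ Real.log 2 / b ≤ L0 ∧
      3 * C / (γ * b) ≤ L0 :=
    ⟨max (Real.log 2 / (ε / 4)) (max (Real.log 2 / b) (3 * C / (γ * b))), le_max_left _ _,
      (le_max_left _ _).trans (le_max_right _ _), (le_max_right _ _).trans (le_max_right _ _)⟩
  obtain ⟨hL1, hL2, hL3⟩ := hL0
  refine ⟨max N1 (max 1 ⌈Real.exp L0⌉₊), fun N hN hNp htN χ hχ1 hχt y hy => ?_⟩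
  have hNN1 : N1 ≤ N := (le_max_left _ _).trans hN
  have hN1' : 1 ≤ N := ((le_max_left _ _).trans (le_max_right _ _)).trans hN
  have hNexp : Real.exp L0 ≤ N := by
    have : ⌈Real.exp L0⌉₊ ≤ N := ((le_max_right _ _).trans (le_max_right _ _)).trans hN
    exact (Nat.le_ceil _).trans (by exact_mod_cast this)
  have hNr1 : (1 : ℝ) ≤ N := by exact_mod_cast hN1'
  have hNpos : (0 : ℝ) < N := by linarith
  have hlog : L0 ≤ Real.log N := (Real.le_log_iff_exp_le hNpos).mpr hNexp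
  have hlog2 : 0 < Real.log 2 := Real.log_pos (by norm_num)
  have hLpos : 0 < Real.log N := by
    have : 0 < Real.log 2 / b := by positivity
    linarith
  -- powers of N are at least 2
  have hpow : ∀ t : ℝ, 0 < t → Real.log 2 / t ≤ Real.log N → (2 : ℝ) ≤ (N : ℝ) ^ t := by
    intro t ht hle
    rw [div_le_iff₀ ht] at hle
    rw [Real.rpow_def_of_pos hNpos]
    calc (2 : ℝ) = Real.exp (Real.log 2) := (Real.exp_log (by norm_num)).symm
      _ ≤ Real.exp (Real.log N * t) := Real.exp_le_exp.mpr hle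
  by_contra hcon
  push Not at hcon
  have hyb : (N : ℝ) ^ b < y := by
    refine lt_of_le_of_lt ?_ hcon
    exact Real.rpow_le_rpow_of_exponent_le hNr1 (by rw [hb]; linarith)
  have hy2 : (2 : ℝ) < y := lt_of_le_of_lt (hpow b hb0 (hL2.trans hlog)) hyb
  have hy2' : 2 ≤ y := by
    have : (2 : ℕ) < y := by exact_mod_cast hy2
    omega
  have hypos : (0 : ℝ) < y := by linarith
  have hlogy : b * Real.log N < Real.log y := by
    have := Real.log_lt_log (Real.rpow_pos_of_pos hNpos b) hyb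
    rwa [Real.log_rpow hNpos] at this
  -- X
  obtain ⟨X, hXdef⟩ : ∃ X : ℕ, X = ⌈(N : ℝ) ^ (1 / 4 + ε / 4)⌉₊ := ⟨_, rfl⟩
  have hX1 : (N : ℝ) ^ (1 / 4 + ε / 4) ≤ X := by rw [hXdef]; exact Nat.le_ceil _
  have hXpow : (X : ℝ) ≤ (N : ℝ) ^ (1 / 4 + 2 * (ε / 4)) := by
    have h1 : (X : ℝ) ≤ (N : ℝ) ^ (1 / 4 + ε / 4) + 1 := by
      rw [hXdef]; exact (Nat.ceil_lt_add_one (by positivity)).le
    have h2 : (1 : ℝ) ≤ (N : ℝ) ^ (1 / 4 + ε / 4) := Real.one_le_rpow hNr1 (by positivity)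
    have h3 : (2 : ℝ) ≤ (N : ℝ) ^ (ε / 4) := hpow _ (by positivity) (hL1.trans hlog)
    have h4 : (N : ℝ) ^ (1 / 4 + 2 * (ε / 4)) = (N : ℝ) ^ (ε / 4) * (N : ℝ) ^ (1 / 4 + ε / 4) := by
      rw [← Real.rpow_add hNpos]; congr 1; ring
    rw [h4]
    nlinarith
  have hX2 : (X : ℝ) ≤ Real.sqrt N := by
    rw [Real.sqrt_eq_rpow]
    exact hXpow.trans (Real.rpow_le_rpow_of_exponent_le hNr1 (by linarith))
  have hkey := hN1 N hNN1 hNp htN χ hχ1 hχt X y hX1 hX2 hy
  have hδ1 : min (γ / 3) (1 / 4) ≤ γ / 3 := min_le_left _ _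
  have hδ2 : min (γ / 3) (1 / 4) ≤ 1 / 4 := min_le_right _ _
  have hbs := SNG_badSum_le N χ y X
  rcases le_or_gt X y with hXy | hXy
  · rw [Finset.Ioc_eq_empty_of_le hXy, Finset.filter_empty, Finset.sum_empty] at hbs
    linarith
  · have hm := hC y X hy2' hXy.le
    have hm2 := (abs_le.mp hm).2
    have hlogypos : 0 < Real.log y := by
      have : 0 < b * Real.log N := by positivity
      linarith
    have hXposN : 0 < X := by omega
    have hXpos : (0 : ℝ) < X := by exact_mod_cast hXposN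
    have hlogX : Real.log X ≤ (1 / 4 + 2 * (ε / 4)) * Real.log N := by
      have := Real.log_le_log hXpos hXpow
      rwa [Real.log_rpow hNpos] at this
    have hlogXpos : 0 < Real.log X := by
      apply Real.log_pos
      have : 1 < X := by omega
      exact_mod_cast this
    have hratio : Real.log X / Real.log y ≤ (1 / 4 + 2 * (ε / 4)) / b := by
      rw [div_le_div_iff₀ hlogypos hb0]
      calc Real.log X * b ≤ ((1 / 4 + 2 * (ε / 4)) * Real.log N) * b := by gcongr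
        _ = (1 / 4 + 2 * (ε / 4)) * (b * Real.log N) := by ring
        _ ≤ (1 / 4 + 2 * (ε / 4)) * Real.log y := by gcongr
    have hlr : Real.log (Real.log X / Real.log y) ≤ 1 - 1 / (t : ℝ) - γ := by
      rw [hγ]
      have := Real.log_le_log (div_pos hlogXpos hlogypos) hratio
      linarith
    have hCy : C / Real.log y ≤ γ / 3 := by
      rw [div_le_iff₀ hlogypos]
      have h5 : 3 * C ≤ Real.log N * (γ * b) := by
        have := hL3.trans hlog
        rwa [div_le_iff₀ (by positivity)] at this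
      nlinarith [mul_lt_mul_of_pos_left hlogy hγ0]
    linarith

end Pool.Agent.D0H57.PR
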