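import Pool.Agent.D0H57.PR.Fin
import Pool.Agent.H386R2.Artin.BadCount
import Pool.Agent.H595R2.PR.FEW

set_option autoImplicit false

/-!
# Few primes such that the numbers up to a small power do not generate everything
-/

namespace Pool.Agent.D0H57.PR

open Finset Pool.Agent.H471R4.BW Pool.Agent.H595R2.PR Pool.Agent.R562.PR

open Classical in
theorem few (κ : ℝ) (hκ : 0 < κ) (hκ1 : κ ≤ 1) : ∃ K : ℕ, ∀ Q : ℕ, ∀ E : Finset ℕ,
    (∀ p ∈ E, p.Prime ∧ Q < p ∧ p ≤ Q ^ 2 ∧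
      ∃ Y : ℕ, (p : ℝ) ^ κ < (Y : ℝ) + 1 ∧ Y < p ∧ Gam p Y ≠ ⊤) → #E ≤ K := by
  obtain ⟨c, hc, D0, hD⟩ := smo (κ / 4) (by linarith) (by linarith)
  refine ⟨D0 + ⌈12 / c⌉₊, fun Q E hE => ?_⟩
  have hsub : E ⊆ Icc 1 (Q ^ 2) := by
    intro p hp
    obtain ⟨h1, _, h3, _⟩ := hE p hp
    exact mem_Icc.2 ⟨h1.one_le, h3⟩
  rcases Nat.eq_zero_or_pos Q with hQ0 | hQ0
  · subst hQ0
    have : #E ≤ #(Icc 1 (0 ^ 2)) := card_le_card hsub
    simp at this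
    simp [this]
  rcases Nat.lt_or_ge (Q ^ 4) D0 with hlt | hge
  · have h1 : #E ≤ Q ^ 2 := by
      have := card_le_card hsub
      rwa [Nat.card_Icc, Nat.add_sub_cancel] at this
    have h2 : Q ^ 2 ≤ Q ^ 4 := Nat.pow_le_pow_right hQ0 (by norm_num)
    omega
  obtain ⟨S, hS1, hS2⟩ := hD (Q ^ 4) hge
  have hQr : (0 : ℝ) < Q := by exact_mod_cast hQ0
  have hS0 : (0 : ℝ) < #S := by
    refine lt_of_lt_of_le ?_ hS2
    push_cast
    positivity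
  have hSsub : S ⊆ Icc 1 (Q ^ 4) := fun s hs => by
    obtain ⟨h1, h2, _⟩ := hS1 s hs
    exact mem_Icc.2 ⟨h1, h2.le⟩
  set α : ℕ → ℂ := fun n => if n ∈ S then 1 else 0 with hα
  have hα2 : ∑ n ∈ Icc 1 (Q ^ 4), ‖α n‖ ^ 2 = #S := by
    have h1 : ∀ n ∈ Icc 1 (Q ^ 4), ‖α n‖ ^ 2 = if n ∈ S then (1 : ℝ) else 0 := by
      intro n _
      by_cases h : n ∈ S <;> simp [hα, h]
    rw [sum_congr rfl h1, sum_ite_mem, inter_eq_right.2 hSsub]
    simp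
  have hLS := Pool.Agent.Helper112.mult_large_sieve (Q ^ 4) (Q ^ 2) α
  have hsum : ∀ p ∈ E, ∃ χ : DirichletCharacter ℂ p, χ ≠ 1 ∧
      ∑ n ∈ Icc 1 (Q ^ 4), α n * χ (n : ZMod p) = (#S : ℂ) := by
    intro p hp
    obtain ⟨hpp, hQp, hpQ, Y, hY1, hY2, hY3⟩ := hE p hp
    haveI : Fact p.Prime := ⟨hpp⟩
    obtain ⟨χ, hχ, hχ1⟩ := FEW.exists_char hY2 hY3
    refine ⟨χ, hχ, ?_⟩
    have h1 : ∀ n ∈ Icc 1 (Q ^ 4), α n * χ (n : ZMod p) =
        if n ∈ S then χ (n : ZMod p) else 0 := by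
      intro n _
      by_cases h : n ∈ S <;> simp [hα, h]
    rw [sum_congr rfl h1, sum_ite_mem, inter_eq_right.2 hSsub]
    have h2 : ∀ s ∈ S, χ ((s : ℕ) : ZMod p) = 1 := by
      intro s hs
      obtain ⟨h3, h4, h5⟩ := hS1 s hs
      have h6 : ∀ l : ℕ, l.Prime → l ∣ s → χ ((l : ℕ) : ZMod p) = 1 := by
        intro l hl hd
        refine hχ1 l hl.one_le ?_
        have h7 := h5 l hl hd
        have h8 : (((Q ^ 4 : ℕ) : ℝ)) ^ (κ / 4) = (Q : ℝ) ^ κ := by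
          push_cast
          rw [← Real.rpow_natCast, ← Real.rpow_mul hQr.le]
          congr 1
          push_cast
          ring
        rw [h8] at h7
        have h9 : (Q : ℝ) ^ κ ≤ (p : ℝ) ^ κ :=
          Real.rpow_le_rpow hQr.le (by exact_mod_cast hQp.le) hκ.le
        have h10 : (l : ℝ) < (Y : ℝ) + 1 := by linarith
        have h11 : l < Y + 1 := by exact_mod_cast h10
        omega
      have h12 : ∀ m : ℕ, m ≠ 0 → (∀ l : ℕ, l.Prime → l ∣ m → χ ((l : ℕ) : ZMod p) = 1) →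
          χ ((m : ℕ) : ZMod p) = 1 := by
        intro m
        induction m using Nat.recOnMul with
        | zero => intro h; exact absurd rfl h
        | one => intro _ _; simp
        | prime l hl => intro _ h; exact h l hl dvd_rfl
        | mul a b ha hb =>
          intro hab h
          have ha0 : a ≠ 0 := fun h0 => hab (by rw [h0, zero_mul])
          have hb0 : b ≠ 0 := fun h0 => hab (by rw [h0, mul_zero])
          push_cast
          rw [map_mul, ha ha0 fun l hl hd => h l hl (hd.mul_right _),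
            hb hb0 fun l hl hd => h l hl (hd.mul_left _), mul_one]
      exact h12 s (by omega) h6
    rw [sum_congr rfl h2]
    simp
  have hlow : (#E : ℝ) * (#S : ℝ) ^ 2 ≤ ∑ f ∈ Icc 1 (Q ^ 2), ((f : ℝ) / (Nat.totient f : ℝ)) *
      ∑ χ ∈ (univ : Finset (DirichletCharacter ℂ f)).filter (fun χ => χ.IsPrimitive),
        ‖∑ n ∈ Icc 1 (Q ^ 4), α n * χ (n : ZMod f)‖ ^ 2 := by
    rw [← nsmul_eq_mul, ← sum_const]
    refine le_trans (sum_le_sum ?_) (sum_le_sum_of_subset_of_nonneg hsub ?_)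
    · intro p hp
      obtain ⟨χ, hχ1, hχM⟩ := hsum p hp
      have hpp := (hE p hp).1
      have hprim := Pool.Agent.H386R2.Artin.T1.prim_of_prime hpp hχ1
      have h1 : (#S : ℝ) ^ 2 = ‖∑ n ∈ Icc 1 (Q ^ 4), α n * χ (n : ZMod p)‖ ^ 2 := by
        rw [hχM, Complex.norm_natCast]
      have h2 : ‖∑ n ∈ Icc 1 (Q ^ 4), α n * χ (n : ZMod p)‖ ^ 2 ≤
          ∑ χ ∈ (univ : Finset (DirichletCharacter ℂ p)).filter (fun χ => χ.IsPrimitive),
            ‖∑ n ∈ Icc 1 (Q ^ 4), α n * χ (n : ZMod p)‖ ^ 2 :=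
        single_le_sum (f := fun χ : DirichletCharacter ℂ p =>
          ‖∑ n ∈ Icc 1 (Q ^ 4), α n * χ (n : ZMod p)‖ ^ 2)
          (fun _ _ => sq_nonneg _) (mem_filter.mpr ⟨mem_univ _, hprim⟩)
      have h3 : (1 : ℝ) ≤ (p : ℝ) / (Nat.totient p : ℝ) := by
        have h0 : (0 : ℝ) < (Nat.totient p : ℝ) := by
          exact_mod_cast Nat.totient_pos.mpr hpp.pos
        rw [le_div_iff₀ h0, one_mul]
        exact_mod_cast Nat.totient_le p
      calc (#S : ℝ) ^ 2 ≤ _ := h1.le.trans h2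
        _ ≤ _ := le_mul_of_one_le_left (sum_nonneg fun _ _ => sq_nonneg _) h3
    · intro f _ _
      exact mul_nonneg (div_nonneg (Nat.cast_nonneg _) (Nat.cast_nonneg _))
        (sum_nonneg fun _ _ => sq_nonneg _)
  have hup : (#E : ℝ) * (#S : ℝ) ^ 2 ≤ 12 * (Q : ℝ) ^ 4 * #S := by
    have h0 : 6 * (((Q ^ 4 : ℕ) : ℝ) + (((Q ^ 2 : ℕ) : ℝ)) ^ 2) *
        ∑ n ∈ Icc 1 (Q ^ 4), ‖α n‖ ^ 2 = 12 * (Q : ℝ) ^ 4 * #S := by
      rw [hα2]
      push_cast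
      ring
    rw [← h0]
    refine hlow.trans ?_
    convert hLS using 1
  have h1 : (#E : ℝ) * #S ≤ 12 * (Q : ℝ) ^ 4 := by
    have h2 : (#E : ℝ) * #S * #S ≤ 12 * (Q : ℝ) ^ 4 * #S := by
      calc (#E : ℝ) * #S * #S = (#E : ℝ) * (#S : ℝ) ^ 2 := by ring
        _ ≤ _ := hup
    exact le_of_mul_le_mul_right h2 hS0
  have h2 : (#E : ℝ) ≤ 12 / c := by
    rw [le_div_iff₀ hc]
    have h3 : (#E : ℝ) * (c * ((Q ^ 4 : ℕ) : ℝ)) ≤ 12 * (Q : ℝ) ^ 4 :=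
      (mul_le_mul_of_nonneg_left hS2 (Nat.cast_nonneg _)).trans h1
    have h4 : (#E : ℝ) * c * (Q : ℝ) ^ 4 ≤ 12 * (Q : ℝ) ^ 4 := by
      calc (#E : ℝ) * c * (Q : ℝ) ^ 4 = (#E : ℝ) * (c * ((Q ^ 4 : ℕ) : ℝ)) := by push_cast; ring
        _ ≤ _ := h3
    exact le_of_mul_le_mul_right h4 (by positivity)
  have h3 : #E ≤ ⌈12 / c⌉₊ := by exact_mod_cast h2.trans (Nat.le_ceil _)
  omega

end Pool.Agent.D0H57.PR
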