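import Pool.Agent.D0H57.PR.TopB

set_option autoImplicit false

/-!
# Assembly
-/

namespace Pool.Agent.D0H57.PR

open Finset Pool.Agent.H471R4.BW Pool.Agent.H595R2.PR Pool.Agent.R562.PR

theorem Gpm_index_dvd {p Y : ℕ} : (Gpm p Y).index ∣ (Gam p Y).index :=
  Subgroup.index_dvd_of_le le_sup_left

/-- nonzero integers of absolute value at most `Y` belong to the group -/
theorem mem_Gpm {p Y : ℕ} [Fact p.Prime] (hY : Y < p) {i : ℤ} (hi : i ≠ 0)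
    (hiY : i.natAbs ≤ Y) : ∃ u : (ZMod p)ˣ, (u : ZMod p) = (i : ZMod p) ∧ u ∈ Gpm p Y := by
  obtain ⟨u, hu1, hu2⟩ := smooth_mem hY i.natAbs (Int.natAbs_ne_zero.2 hi) fun l _ hd =>
    (Nat.le_of_dvd (Int.natAbs_pos.2 hi) hd).trans hiY
  have hu3 : u ∈ Gpm p Y := (le_sup_left : Gam p Y ≤ Gpm p Y) hu2
  rcases Int.natAbs_eq i with h | h
  · refine ⟨u, ?_, hu3⟩
    rw [hu1, h]
    simp
  · refine ⟨(-1) * u, ?_, Subgroup.mul_mem _ ?_ hu3⟩
    · rw [Units.val_mul, hu1, h]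
      simp
    · exact (le_sup_right : Subgroup.zpowers (-1 : (ZMod p)ˣ) ≤ Gpm p Y) (Subgroup.mem_zpowers _)

/-- a rational exponent slightly smaller than `δ` -/
theorem exists_cd {a δ : ℝ} (ha : 0 ≤ a) (ha1 : a < 1) (hδ : a < δ) :
    ∃ c d : ℕ, 1 ≤ c ∧ c < d ∧ a < (c : ℝ) / d ∧ (c : ℝ) / d < δ := by
  obtain ⟨q, hq1, hq2⟩ := exists_rat_btwn (lt_min hδ ha1)
  have hq0 : (0 : ℚ) < q := by
    have : (0 : ℝ) < q := lt_of_le_of_lt ha hq1
    exact_mod_cast this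
  have hqe : (q : ℝ) = (q.num.toNat : ℝ) / (q.den : ℝ) := by
    have h1 : ((q.num.toNat : ℕ) : ℤ) = q.num := Int.toNat_of_nonneg (Rat.num_pos.2 hq0).le
    have h2 : ((q.num.toNat : ℕ) : ℝ) = (q.num : ℝ) := by exact_mod_cast congrArg (Int.cast (R := ℝ)) h1
    rw [h2]
    exact_mod_cast (Rat.num_div_den q).symm
  have hd0 : (0 : ℝ) < q.den := by exact_mod_cast q.den_pos
  refine ⟨q.num.toNat, q.den, ?_, ?_, by rw [← hqe]; exact hq1, by
    rw [← hqe]; exact lt_of_lt_of_le hq2 (min_le_left _ _)⟩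
  · have : 0 < q.num := Rat.num_pos.2 hq0
    omega
  · have h1 : (q : ℝ) < 1 := lt_of_lt_of_le hq2 (min_le_right _ _)
    rw [hqe, div_lt_one hd0] at h1
    exact_mod_cast h1

theorem ex_two : ex 2 = 1 / (4 * Real.sqrt (Real.exp 1)) := by
  unfold ex
  rw [show (1 - 1 / ((2 : ℕ) : ℝ)) = 1 / 2 by norm_num, Real.exp_half]

theorem ex_lt_one {t : ℕ} (ht : 0 < t) : ex t < 1 := by
  have h1 : ex t ≤ ex 1 := ex_anti one_pos ht
  have h2 : ex 1 = 1 / 4 := by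
    unfold ex
    norm_num
  rw [h2] at h1
  linarith

open Classical in
/-- The general form of the algorithm. -/
theorem general (t₀ : ℕ) (ht₀ : 0 < t₀) (δ : ℝ) (hδ : ex t₀ < δ) (B : ℕ) :
    ∃ (C : ℕ) (F : ℕ → List ℕ) (K : ℝ), 0 < K ∧ LoopTime (fun p => K * (p : ℝ) ^ δ) F ∧
      (∀ p : ℕ, (F p).length = p.size ^ C) ∧ ∃ p₀ : ℕ, ∀ p : ℕ, p₀ ≤ p → p.Prime →
        (∀ t : ℕ, t.Prime → t < t₀ → t ∣ p - 1 → ∃ i : ℤ, i ≠ 0 ∧
          |(i : ℝ)| ≤ (p : ℝ) ^ (ex t₀) ∧ (i : ZMod p) ^ ((p - 1) / t) ≠ 1) →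
        p.size ^ B * #{i ∈ range (F p).length | ¬ IsPrimRoot p ((F p).getD i 0)} ≤
          (F p).length := by
  obtain ⟨c, d, hc, hcd, h1, h2⟩ := exists_cd (ex_pos t₀).le (ex_lt_one ht₀) hδ
  have hd : 1 ≤ d := by omega
  obtain ⟨A, C, p₁, hp₁⟩ := prim c d hc hcd B
  obtain ⟨K, hK, hloop⟩ := loop c d A C hc hd δ h2
  obtain ⟨p₂, hp₂⟩ := index_primes t₀ ht₀ ((c : ℝ) / d) h1
  refine ⟨C, FF c d A C, K, hK, hloop, length_FF hd A C, max p₁ p₂, fun p hp hpp hnr => ?_⟩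
  haveI : Fact p.Prime := ⟨hpp⟩
  have hp1 : (1 : ℝ) ≤ p := by exact_mod_cast hpp.one_le
  have hYp := Yf_lt (p := p) hcd hpp.two_le
  have hlt := lt_Yf (c := c) (p := p) hd
  refine hp₁ p (le_of_max_le_left hp) hpp ?_
  by_contra hne
  have hi : (Gpm p (Yf c d p)).index ≠ 1 := fun h3 => hne (Subgroup.index_eq_one.1 h3)
  obtain ⟨t, ht, hdt⟩ := Nat.exists_prime_and_dvd hi
  rcases Nat.lt_or_ge t t₀ with h3 | h3
  · have htp := Pool.Agent.TH668.PR.dvd_sub_one _ hdt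
    obtain ⟨i, hi0, hi1, hi2⟩ := hnr t ht h3 htp
    have hiY : i.natAbs ≤ Yf c d p := by
      have h4 : ((i.natAbs : ℕ) : ℝ) = |(i : ℝ)| := by
        rw [← Int.cast_abs, ← Int.natCast_natAbs]
        simp
      have h5 : ((i.natAbs : ℕ) : ℝ) < (Yf c d p : ℝ) + 1 := by
        rw [h4]
        refine lt_of_le_of_lt (hi1.trans ?_) hlt
        exact Real.rpow_le_rpow_of_exponent_le hp1 h1.le
      have h6 : i.natAbs < Yf c d p + 1 := by exact_mod_cast h5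
      omega
    obtain ⟨u, hu1, hu2⟩ := mem_Gpm hYp hi0 hiY
    have h7 := Pool.Agent.TH668.PR.pow_div _ ht.pos hdt hu2
    apply hi2
    rw [← hu1, ← Units.val_pow_eq_pow_val, h7, Units.val_one]
  · exact hp₂ p (le_of_max_le_right hp) hpp _ hlt hYp t ht h3 (hdt.trans Gpm_index_dvd)

/-- `-1` or `2` is a nonresidue modulo `p` if `p` is not `1` modulo `8` -/
theorem nonres {p : ℕ} [hp : Fact p.Prime] (hp2 : p ≠ 2) (h8 : p % 8 ≠ 1) :
    ∃ i : ℤ, i ≠ 0 ∧ |(i : ℝ)| ≤ 2 ∧ (i : ZMod p) ^ ((p - 1) / 2) ≠ 1 := by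
  have hpp : p.Prime := hp.out
  have hodd : p % 2 = 1 := hpp.eq_two_or_odd.resolve_left hp2
  have h2 : (p - 1) / 2 = p / 2 := by omega
  by_cases h4 : p % 4 = 3
  · refine ⟨-1, by norm_num, by norm_num, ?_⟩
    rw [h2]
    intro h
    have h1 : ((-1 : ℤ) : ZMod p) ≠ 0 := by
      push_cast
      simp
    have h3 := (ZMod.euler_criterion p h1).2 h
    push_cast at h3
    rw [ZMod.exists_sq_eq_neg_one_iff] at h3
    exact h3 h4
  · have h5 : p % 8 = 5 := by omega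
    refine ⟨2, by norm_num, by norm_num, ?_⟩
    rw [h2]
    intro h
    have h1 : ((2 : ℤ) : ZMod p) ≠ 0 := by
      intro h0
      have h6 : ((2 : ℕ) : ZMod p) = 0 := by exact_mod_cast h0
      rw [ZMod.natCast_eq_zero_iff] at h6
      exact hp2 ((Nat.prime_dvd_prime_iff_eq hpp Nat.prime_two).1 h6)
    have h3 := (ZMod.euler_criterion p h1).2 h
    push_cast at h3
    rw [ZMod.exists_sq_eq_two_iff hp2] at h3
    omega

end Pool.Agent.D0H57.PR
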