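import Pool.Agent.D0H57.PR.Main
import Pool.Agent.H595R2.PR.SIZ

set_option autoImplicit false

/-!
# Almost all entries of the list generate the group generated by `1, …, Y`
-/

namespace Pool.Agent.D0H57.PR

open Finset Pool.Agent.NPC Pool.Agent.H595R2.PR Pool.Agent.R562.PR

theorem Yf_lt {c d p : ℕ} (hcd : c < d) (hp : 2 ≤ p) : Yf c d p < p := by
  have h1 : (Yf c d p) ^ d ≤ p ^ c := (Yf_iff (by omega) _).2 le_rfl
  have h2 : p ^ c < p ^ d := Nat.pow_lt_pow_right (by omega) hcd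
  exact lt_of_pow_lt_pow_left₀ d (Nat.zero_le _) (lt_of_le_of_lt h1 h2)

open Classical in
theorem gen (c d : ℕ) (hc : 1 ≤ c) (hcd : c < d) (B : ℕ) : ∃ A C p₀ : ℕ, ∀ p : ℕ, p₀ ≤ p →
    p.Prime → p.size ^ B * #{i ∈ range (FF c d A C p).length |
      ¬ Generates p (Gpm p (Yf c d p)) ((FF c d A C p).getD i 0)} ≤ (FF c d A C p).length := by
  have hd : 1 ≤ d := by omega
  have hd0 : (0 : ℝ) < d := by exact_mod_cast hd
  have hε : 0 < (c : ℝ) / d := div_pos (by exact_mod_cast hc) hd0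
  obtain ⟨A, hA⟩ := Gam_large ((c : ℝ) / d) hε
  obtain ⟨p₁, hp₁⟩ := hA A le_rfl
  obtain ⟨p₂, hp₂⟩ := pow_size_lt (A * d)
  refine ⟨A, A + 2 + B + 2, max p₁ p₂, fun p hp hpp => ?_⟩
  haveI : Fact p.Prime := ⟨hpp⟩
  have hYp := Yf_lt (p := p) hcd hpp.two_le
  have hZ : p.size ^ A ≤ Yf c d p := by
    rw [← Yf_iff hd, ← pow_mul]
    calc p.size ^ (A * d) ≤ p := (hp₂ p (le_of_max_le_right hp)).le
      _ = p ^ 1 := (pow_one p).symm
      _ ≤ p ^ c := Nat.pow_le_pow_right hpp.pos hc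
  have hZ1 : 1 ≤ p.size ^ A := Nat.one_le_pow _ _ (Nat.size_pos.2 hpp.pos)
  have hgrp := group_eq' (p := p) hYp hZ (by omega) (fun l _ hd' => by
    have h1 := Pool.Agent.TH668.PR.dvd_index_lt _ _ (hp₁ p (le_of_max_le_left hp) hpp) hd'
    have h2 := lt_Yf (c := c) (p := p) hd
    have h3 : (l : ℝ) < (Yf c d p : ℝ) + 1 := h1.trans h2
    have h4 : l < Yf c d p + 1 := by exact_mod_cast h3
    omega)
  rw [length_FF hd, FF_eq hd]
  have hinv := inv_iter (c := c) (d := d) hpp.two_le (Yf_iff (c := c) (p := p) hd)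
    (tm p (Yf c d p) (Yf c d p - 1))
  have hlen := hinv.length_le
  rw [(fin_end (Yf_iff hd)).1] at hlen
  simp only at hlen
  have h1 := coreS (A + 2 + B + 2) p hpp
    (withSmall (p.size ^ A) ((p - 1) :: (MS p (Yf c d p) (Yf c d p - 1)).2))
  rw [length_withSmall, List.length_cons] at h1
  have h2 := fits (n := p.size) (A := A) (A' := 2) (B := B)
    (L := (MS p (Yf c d p) (Yf c d p - 1)).2.length + 1 + p.size ^ A) (two_le_size hpp)
    (by
      rw [Nat.add_comm]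
      refine Nat.add_le_add_left ?_ _
      have := two_le_size hpp
      nlinarith) h1
  refine le_trans (Nat.mul_le_mul_left _ (card_le_card ?_)) h2
  intro i hi
  rw [mem_filter] at hi ⊢
  refine ⟨hi.1, fun hg => hi.2 ?_⟩
  rw [genS_iff, hgrp] at hg
  exact hg

open Classical in
/-- if the numbers up to `Y` generate everything, almost all entries are primitive roots -/
theorem prim (c d : ℕ) (hc : 1 ≤ c) (hcd : c < d) (B : ℕ) : ∃ A C p₀ : ℕ, ∀ p : ℕ, p₀ ≤ p →
    p.Prime → Gpm p (Yf c d p) = ⊤ → p.size ^ B * #{i ∈ range (FF c d A C p).length |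
      ¬ IsPrimRoot p ((FF c d A C p).getD i 0)} ≤ (FF c d A C p).length := by
  obtain ⟨A, C, p₀, h⟩ := gen c d hc hcd B
  refine ⟨A, C, p₀, fun p hp hpp htop => ?_⟩
  haveI : Fact p.Prime := ⟨hpp⟩
  refine le_trans (Nat.mul_le_mul_left _ (card_le_card ?_)) (h p hp hpp)
  intro i hi
  rw [mem_filter] at hi ⊢
  refine ⟨hi.1, fun hg => hi.2 ?_⟩
  rw [htop] at hg
  exact prim_of_generates hg

end Pool.Agent.D0H57.PR
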