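import Pool.Agent.D0H57.PR.Run

set_option autoImplicit false

/-!
# The group generated by the list found by the loop
-/

namespace Pool.Agent.D0H57.PR

open Pool.Agent.NPC Pool.Agent.H595R2.PR Pool.Agent.R562.PR

/-- what is known after the numbers `2, …, j + 1` -/
structure Known (p Y j : ℕ) : Prop where
  k1 : (MS p Y j).1 ∣ p - 1
  k2 : ∀ q : ℕ, q.Prime → q ≤ j + 1 → ¬ q ∣ (MS p Y j).1
  k3 : ∀ q : ℕ, q.Prime → j + 1 < q → q ∣ p - 1 → q ∣ (MS p Y j).1
  k4 : ∀ q : ℕ, q.Prime → q ≤ j + 1 → q ∣ p - 1 → best p p.size Y q ∈ (MS p Y j).2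
  k5 : ∀ s ∈ (MS p Y j).2, ∃ q : ℕ, q.Prime ∧ s = best p p.size Y q

theorem known {p Y : ℕ} (hp : 2 ≤ p) : ∀ j : ℕ, Known p Y j := by
  intro j
  induction j with
  | zero =>
    refine ⟨dvd_rfl, ?_, ?_, ?_, ?_⟩
    · intro q hq h
      have := hq.two_le
      omega
    · intro q _ _ h
      exact h
    · intro q hq h
      have := hq.two_le
      omega
    · intro s hs
      simp [MS] at hs
  | succ j ih =>
    obtain ⟨k1, k2, k3, k4, k5⟩ := ih
    have hM0 : 0 < (MS p Y j).1 := Nat.pos_of_dvd_of_pos k1 (by omega)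
    by_cases hm : (MS p Y j).1 % (j + 2) = 0
    · have hd : (j + 2) ∣ (MS p Y j).1 := Nat.dvd_of_mod_eq_zero hm
      have hpr : (j + 2).Prime := by
        have h1 : (j + 2).minFac.Prime := Nat.minFac_prime (by omega)
        have h2 : (j + 2).minFac ∣ (MS p Y j).1 := (Nat.minFac_dvd _).trans hd
        have h3 : ¬ (j + 2).minFac ≤ j + 1 := fun h => k2 _ h1 h h2
        have h4 := Nat.minFac_le (n := j + 2) (by omega)
        have h5 : (j + 2).minFac = j + 2 := by omega
        rw [← h5]
        exact h1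
      have hlt : (MS p Y j).1 < 2 ^ p.size :=
        lt_of_le_of_lt ((Nat.le_of_dvd (by omega) k1).trans (Nat.sub_le _ _)) (Nat.lt_size_self p)
      have hst := strip_eq hpr hM0 hlt
      have e1 : (MS p Y (j + 1)).1 = strip (j + 2) p.size (MS p Y j).1 := by
        rw [MS, if_pos hm]
      have e2 : (MS p Y (j + 1)).2 = best p p.size Y (j + 2) :: (MS p Y j).2 := by
        rw [MS, if_pos hm]
      have hmul := Nat.ordProj_mul_ordCompl_eq_self (MS p Y j).1 (j + 2)
      refine ⟨?_, ?_, ?_, ?_, ?_⟩
      · rw [e1, hst]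
        exact (Nat.ordCompl_dvd _ _).trans k1
      · intro q hq hqj h
        rw [e1, hst] at h
        rcases Nat.lt_or_ge q (j + 2) with h1 | h1
        · exact k2 q hq (by omega) (h.trans (Nat.ordCompl_dvd _ _))
        · have : q = j + 2 := by omega
          subst this
          exact Nat.not_dvd_ordCompl hpr hM0.ne' h
      · intro q hq hqj h
        rw [e1, hst]
        have h1 := k3 q hq (by omega) h
        rw [← hmul] at h1
        rcases (hq.dvd_mul).1 h1 with h2 | h2
        · have h3 := (Nat.prime_dvd_prime_iff_eq hq hpr).1 (hq.dvd_of_dvd_pow h2)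
          omega
        · exact h2
      · intro q hq hqj h
        rw [e2, List.mem_cons]
        rcases Nat.lt_or_ge q (j + 2) with h1 | h1
        · exact Or.inr (k4 q hq (by omega) h)
        · have : q = j + 2 := by omega
          subst this
          exact Or.inl rfl
      · intro s hs
        rw [e2, List.mem_cons] at hs
        rcases hs with hs | hs
        · exact ⟨j + 2, hpr, hs⟩
        · exact k5 s hs
    · have e : MS p Y (j + 1) = MS p Y j := by rw [MS, if_neg hm]
      have hnd : ¬ (j + 2) ∣ (MS p Y j).1 := fun h => hm (Nat.mod_eq_zero_of_dvd h)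
      refine ⟨by rw [e]; exact k1, ?_, ?_, ?_, by rw [e]; exact k5⟩
      · intro q hq hqj h
        rw [e] at h
        rcases Nat.lt_or_ge q (j + 2) with h1 | h1
        · exact k2 q hq (by omega) h
        · have : q = j + 2 := by omega
          subst this
          exact hnd h
      · intro q hq hqj h
        rw [e]
        exact k3 q hq (by omega) h
      · intro q hq hqj h
        rw [e]
        rcases Nat.lt_or_ge q (j + 2) with h1 | h1
        · exact k4 q hq (by omega) h
        · have : q = j + 2 := by omega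
          subst this
          exact absurd (k3 _ hq (by omega) h) hnd

section grp

variable {p : ℕ} [hp : Fact p.Prime]

theorem Gam_eq {Y : ℕ} (hY : Y < p) : Gam p Y = Subgroup.closure (cort p '' Set.Iio Y) := by
  unfold Gam
  congr 1
  ext u
  constructor
  · rintro ⟨i, hi, hu⟩
    exact ⟨i, hi, Units.ext (by rw [cort_val hY hi, hu])⟩
  · rintro ⟨i, hi, rfl⟩
    exact ⟨i, hi, cort_val hY hi⟩

/-- the selected element has the order of the Sylow subgroup -/
theorem best_order {Y l : ℕ} (hY : Y < p) (hl : l.Prime) : ∃ u : (ZMod p)ˣ,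
    (u : ZMod p) = ((best p p.size Y l : ℕ) : ZMod p) ∧
      orderOf u = l ^ (Nat.card (Gam p Y)).factorization l := by
  have hpp : p.Prime := hp.out
  have hp1 : 0 < p - 1 := by have := hpp.one_lt; omega
  have hcard : Nat.card (ZMod p)ˣ = p - 1 := by
    rw [Nat.card_eq_fintype_card, ZMod.card_units]
  have hn : p < 2 ^ p.size := Nat.lt_size_self p
  refine ⟨corb p p.size Y l, (cor_best hY).symm, ?_⟩
  unfold corb
  have h := best_alg (cort p) Y p.size l (strip l p.size (p - 1)) (Gam p Y) (Gam_eq hY) hl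
    (by omega) (by rw [hcard]; exact strip_eq hl hp1 (by omega))
  convert h
  rfl

/-- The list found by the loop together with few small numbers generates the same group as all
numbers up to `Y`. -/
theorem group_eq {Y Z : ℕ} (hY : Y < p) (hZY : Z ≤ Y) (hY1 : 1 ≤ Y)
    (hind : ∀ l : ℕ, l.Prime → l ∣ (Gam p Z).index → l ≤ Y) :
    listGroup p (withSmall Z (MS p Y (Y - 1)).2) = Gam p Y := by
  have hpp : p.Prime := hp.out
  have hk := known (Y := Y) hpp.two_le (Y - 1)
  set S := (MS p Y (Y - 1)).2 with hS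
  set K := listGroup p (withSmall Z S) with hK
  have hle : K ≤ Gam p Y := by
    rw [hK]
    unfold listGroup
    rw [Subgroup.closure_le]
    rintro u ⟨x, hx, hu⟩
    unfold withSmall at hx
    rw [List.mem_append, List.mem_map] at hx
    rcases hx with hx | ⟨i, hi, rfl⟩
    · obtain ⟨q, hq, rfl⟩ := hk.k5 x hx
      obtain ⟨v, hv1, hv2⟩ := best_order hY hq
      have : u = v := Units.ext (by rw [hu, hv1])
      rw [this]
      apply mem_of_pow_card
      rw [← orderOf_dvd_iff_pow_eq_one, hv2]
      exact Nat.ordProj_dvd _ _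
    · rw [List.mem_range] at hi
      exact Subgroup.subset_closure ⟨i, by omega, hu⟩
  have hΓ : Gam p Z ≤ K := Gam_le p Z S
  apply le_antisymm hle
  by_contra hne
  have h1 : K.relIndex (Gam p Y) ≠ 1 := fun h => hne (Subgroup.relIndex_eq_one.1 h)
  obtain ⟨l, hl, hd⟩ := Nat.exists_prime_and_dvd h1
  have hd2 : l ∣ (Gam p Z).index := by
    have h2 := Subgroup.relIndex_mul_index hle
    have h3 := Subgroup.relIndex_mul_index hΓ
    rw [← h3, ← h2]
    exact dvd_mul_of_dvd_right (dvd_mul_of_dvd_left hd _) _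
  have hlY := hind l hl hd2
  have hlp : l ∣ p - 1 := Pool.Agent.TH668.PR.dvd_sub_one _ hd2
  have hmem := hk.k4 l hl (by omega) hlp
  obtain ⟨v, hv1, hv2⟩ := best_order hY hl
  have hvK : v ∈ K := by
    refine Subgroup.subset_closure ⟨_, ?_, hv1⟩
    unfold withSmall
    exact List.mem_append_left _ hmem
  have h4 : l ^ (Nat.card (Gam p Y)).factorization l ∣ Nat.card K := by
    rw [← hv2]
    exact (Subgroup.orderOf_dvd_natCard K hvK)
  have h5 : Nat.card K * K.relIndex (Gam p Y) = Nat.card (Gam p Y) := by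
    have h6 := Subgroup.card_mul_index (K.subgroupOf (Gam p Y))
    rw [Nat.card_congr (Subgroup.subgroupOfEquivOfLe hle).toEquiv] at h6
    exact h6
  have hc0 : Nat.card (Gam p Y) ≠ 0 := Nat.card_pos.ne'
  have h7 : l ^ ((Nat.card (Gam p Y)).factorization l + 1) ∣ Nat.card (Gam p Y) := by
    rw [pow_succ]
    nth_rw 2 [← h5]
    exact Nat.mul_dvd_mul h4 hd
  exact Nat.pow_succ_factorization_not_dvd hc0 hl h7

/-- the group generated by `-1, 1, …, Y` -/
def Gpm (p Y : ℕ) : Subgroup (ZMod p)ˣ := Gam p Y ⊔ Subgroup.zpowers (-1)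

theorem group_eq' {Y Z : ℕ} (hY : Y < p) (hZY : Z ≤ Y) (hY1 : 1 ≤ Y)
    (hind : ∀ l : ℕ, l.Prime → l ∣ (Gam p Z).index → l ≤ Y) :
    listGroup p (withSmall Z ((p - 1) :: (MS p Y (Y - 1)).2)) = Gpm p Y := by
  have h := group_eq hY hZY hY1 hind
  have hp1 : 1 ≤ p := hp.out.one_le
  have hneg : (((p - 1 : ℕ)) : ZMod p) = (((-1 : (ZMod p)ˣ)) : ZMod p) := by
    rw [Nat.cast_sub hp1]
    simp
  unfold Gpm
  rw [← h]
  apply le_antisymm
  · unfold listGroup
    rw [Subgroup.closure_le]
    rintro u ⟨x, hx, hu⟩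
    unfold withSmall at hx
    rw [List.cons_append, List.mem_cons] at hx
    rcases hx with hx | hx
    · refine (le_sup_right : _ ≤ Subgroup.closure _ ⊔ Subgroup.zpowers (-1 : (ZMod p)ˣ)) ?_
      have : u = -1 := Units.ext (by rw [hu, hx, hneg])
      rw [this]
      exact Subgroup.mem_zpowers _
    · exact (le_sup_left : _ ≤ Subgroup.closure _ ⊔ Subgroup.zpowers (-1 : (ZMod p)ˣ))
        (Subgroup.subset_closure ⟨x, hx, hu⟩)
  · rw [sup_le_iff]
    constructor
    · unfold listGroup
      refine Subgroup.closure_mono ?_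
      rintro u ⟨x, hx, hu⟩
      refine ⟨x, ?_, hu⟩
      unfold withSmall at hx ⊢
      rw [List.cons_append, List.mem_cons]
      exact Or.inr hx
    · rw [Subgroup.zpowers_le]
      refine Subgroup.subset_closure ⟨p - 1, ?_, hneg.symm⟩
      unfold withSmall
      rw [List.cons_append, List.mem_cons]
      exact Or.inl rfl

end grp

end Pool.Agent.D0H57.PR
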