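import Pool.Agent.R562.PR.GenPol

set_option autoImplicit false

/-!
# Programs consisting of a loop with a polynomial-time body

`LoopTime T F`: the list `F p` is computed from the digits of `p` by a program
`s := init p; while not stop s do s := step s; return out s`, where `init`, `step`, `stop`, `out` are
functions on bit strings computed by Turing machines in polynomial time, all states `s` have length
polynomial in the number of digits of `p`, and the body of the loop is executed at most `T p` times.
-/

namespace Pool.Agent.D0H57.PR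

open Pool.Agent.NPC

/-- `F` is computed by a loop with at most `T p` rounds, with polynomial-time body and with states
of polynomial length -/
def LoopTime (T : ℕ → ℝ) (F : ℕ → List ℕ) : Prop :=
  ∃ (init step stop out : List Bool → List Bool) (K : ℕ),
    PolyTime init ∧ PolyTime step ∧ PolyTime stop ∧ PolyTime out ∧
    ∀ p : ℕ, ∃ t : ℕ, (t : ℝ) ≤ T p ∧
      (∀ s : ℕ, s ≤ t → (step^[s] (init (Nat.bits p))).length ≤ (p.size + K) ^ K ∧
        (stop (step^[s] (init (Nat.bits p))) = [true] ↔ s = t)) ∧
      out (step^[t] (init (Nat.bits p))) = bits (F p)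

theorem LoopTime.of_typed {σ : Type} [TEnc σ] [TDec σ] {T : ℕ → ℝ} {F : ℕ → List ℕ} (i : ℕ → σ)
    (f : σ → σ) (g : σ → Bool) (o : σ → List ℕ) (hi : NPC.Poly i) (hf : NPC.Poly f)
    (hg : NPC.Poly g) (ho : NPC.Poly o) (K : ℕ)
    (h : ∀ p : ℕ, ∃ t : ℕ, (t : ℝ) ≤ T p ∧
      (∀ s : ℕ, s ≤ t → sz (f^[s] (i p)) ≤ (p.size + K) ^ K ∧ (g (f^[s] (i p)) = true ↔ s = t)) ∧
      o (f^[t] (i p)) = F p) : LoopTime T F := by
  have h1 : PolyTime (fun x => bits (i (valB x))) :=
    polyTime_bits (hi.comp (NPC.Poly.valBits NPC.Poly.id))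
  have h2 : NPC.Poly (fun x : List Bool => (unbits σ x).elim (i 0) f) := by
    refine (NPC.Poly.optCases (o := fun x : List Bool => unbits σ x) (g := fun _ => i 0)
      (h := fun _ s => f s) poly_unbits (NPC.Poly.const _) (hf.comp (NPC.Poly.snd NPC.Poly.id))).congr
      fun x => ?_
    cases unbits σ x <;> rfl
  have h3 : NPC.Poly (fun x : List Bool => (unbits σ x).elim true g) := by
    refine (NPC.Poly.optCases (o := fun x : List Bool => unbits σ x) (g := fun _ => true)
      (h := fun _ s => g s) poly_unbits (NPC.Poly.const _) (hg.comp (NPC.Poly.snd NPC.Poly.id))).congr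
      fun x => ?_
    cases unbits σ x <;> rfl
  have h4 : NPC.Poly (fun x : List Bool => (unbits σ x).elim [] o) := by
    refine (NPC.Poly.optCases (o := fun x : List Bool => unbits σ x) (g := fun _ => ([] : List ℕ))
      (h := fun _ s => o s) poly_unbits (NPC.Poly.const _) (ho.comp (NPC.Poly.snd NPC.Poly.id))).congr
      fun x => ?_
    cases unbits σ x <;> rfl
  refine ⟨_, _, _, _, K, h1, polyTime_bits h2, polyTime_of_poly h3, polyTime_bits h4, fun p => ?_⟩
  have hit : ∀ s : ℕ, (fun x => bits ((unbits σ x).elim (i 0) f))^[s] (bits (i (valB (Nat.bits p))))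
      = bits (f^[s] (i p)) := by
    intro s
    induction s with
    | zero => simp [valB_bits]
    | succ s ih =>
      rw [Function.iterate_succ_apply', ih, Function.iterate_succ_apply']
      simp only [unbits_bits, Option.elim]
  obtain ⟨t, ht, hs, ho'⟩ := h p
  refine ⟨t, ht, fun s hst => ?_, ?_⟩
  · rw [hit]
    refine ⟨?_, ?_⟩
    · rw [bits_length]
      exact (hs s hst).1
    · simp only [unbits_bits, Option.elim]
      rw [← (hs s hst).2]
      simp
  · rw [hit]
    simp only [unbits_bits, Option.elim]
    rw [ho']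

end Pool.Agent.D0H57.PR
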