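import Pool.Agent.D0H57.PR.Grp

set_option autoImplicit false

/-!
# The algorithm: almost all entries generate the group generated by `1, …, Y`
-/

namespace Pool.Agent.D0H57.PR

open Finset Pool.Agent.NPC Pool.Agent.H595R2.PR Pool.Agent.R562.PR

/-- the largest `y` with `y ^ d ≤ p ^ c` -/
def Yf (c d p : ℕ) : ℕ := Nat.findGreatest (fun y => y ^ d ≤ p ^ c) (p ^ c)

theorem Yf_iff {c d p : ℕ} (hd : 1 ≤ d) (y : ℕ) : y ^ d ≤ p ^ c ↔ y ≤ Yf c d p := by
  constructor
  · intro h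
    refine Nat.le_findGreatest ?_ h
    exact (Nat.le_self_pow (by omega) y).trans h
  · intro h
    have h0 : (0 : ℕ) ^ d ≤ p ^ c := by rw [zero_pow (by omega)]; exact Nat.zero_le _
    have h1 : (Yf c d p) ^ d ≤ p ^ c :=
      Nat.findGreatest_spec (P := fun y => y ^ d ≤ p ^ c) (Nat.zero_le (p ^ c)) h0
    exact (Nat.pow_le_pow_left h d).trans h1

theorem Yf_le_pow {c d p : ℕ} : Yf c d p ≤ p ^ c := Nat.findGreatest_le _

theorem Yf_le {c d p : ℕ} (hd : 1 ≤ d) : (Yf c d p : ℝ) ≤ (p : ℝ) ^ ((c : ℝ) / d) := by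
  have h1 : (Yf c d p) ^ d ≤ p ^ c := (Yf_iff hd _).2 le_rfl
  have hd0 : (0 : ℝ) < d := by exact_mod_cast hd
  have h2 : ((Yf c d p : ℕ) : ℝ) ^ (d : ℝ) ≤ ((p : ℝ) ^ ((c : ℝ) / d)) ^ (d : ℝ) := by
    rw [← Real.rpow_mul (Nat.cast_nonneg _), div_mul_cancel₀ _ hd0.ne', Real.rpow_natCast,
      Real.rpow_natCast]
    exact_mod_cast h1
  exact (Real.rpow_le_rpow_iff (Nat.cast_nonneg _) (Real.rpow_nonneg (Nat.cast_nonneg _) _) hd0).1 h2

theorem lt_Yf {c d p : ℕ} (hd : 1 ≤ d) : (p : ℝ) ^ ((c : ℝ) / d) < (Yf c d p : ℝ) + 1 := by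
  have hd0 : (0 : ℝ) < d := by exact_mod_cast hd
  by_contra hcon
  push Not at hcon
  have h2 : (((Yf c d p : ℕ) : ℝ) + 1) ^ (d : ℝ) ≤ ((p : ℝ) ^ ((c : ℝ) / d)) ^ (d : ℝ) :=
    Real.rpow_le_rpow (by positivity) hcon hd0.le
  rw [← Real.rpow_mul (Nat.cast_nonneg _), div_mul_cancel₀ _ hd0.ne', Real.rpow_natCast,
      Real.rpow_natCast] at h2
  have h3 : (Yf c d p + 1) ^ d ≤ p ^ c := by exact_mod_cast h2
  have := (Yf_iff hd _).1 h3
  omega

/-- the list -/
def FF (c d A C p : ℕ) : List ℕ :=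
  outp A C ((stp c d)^[tm p (Yf c d p) (Yf c d p - 1)] (ini p))

theorem FF_eq {c d : ℕ} (hd : 1 ≤ d) (A C p : ℕ) : FF c d A C p =
    candsS C p (withSmall (p.size ^ A) ((p - 1) :: (MS p (Yf c d p) (Yf c d p - 1)).2)) := by
  unfold FF
  rw [(fin_end (Yf_iff hd)).1]
  rfl

theorem size_le_rpow {η : ℝ} (hη : 0 < η) {p : ℕ} (hp : 1 ≤ p) :
    (p.size : ℝ) + 1 ≤ (1 / (η * Real.log 2) + 2) * (p : ℝ) ^ η := by
  have hp0 : (1 : ℝ) ≤ p := by exact_mod_cast hp
  have hl2 : 0 < Real.log 2 := Real.log_pos (by norm_num)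
  have h1 : p.size ≤ Nat.log 2 p + 1 := by
    rw [Nat.size_le]
    exact Nat.lt_pow_succ_log_self (by norm_num) p
  have h2 : (Nat.log 2 p : ℝ) ≤ Real.log p / Real.log 2 := by
    rw [le_div_iff₀ hl2]
    have h3 : (2 : ℝ) ^ (Nat.log 2 p) ≤ p := by
      exact_mod_cast Nat.pow_log_le_self 2 (by omega)
    have h4 := Real.log_le_log (by positivity) h3
    rwa [Real.log_pow] at h4
  have h3 : Real.log p ≤ (p : ℝ) ^ η / η := Real.log_le_rpow_div (Nat.cast_nonneg _) hη
  have h4 : (1 : ℝ) ≤ (p : ℝ) ^ η := Real.one_le_rpow hp0 hη.le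
  have h5 : (p.size : ℝ) ≤ Nat.log 2 p + 1 := by exact_mod_cast h1
  calc (p.size : ℝ) + 1 ≤ Real.log p / Real.log 2 + 2 := by linarith
    _ ≤ ((p : ℝ) ^ η / η) / Real.log 2 + 2 * (p : ℝ) ^ η := by
        gcongr
        linarith
    _ = (1 / (η * Real.log 2) + 2) * (p : ℝ) ^ η := by
        field_simp

theorem sz_ini : ∀ p : ℕ, p < 2 → sz (ini p) ≤ 100 := by decide

theorem loop (c d A C : ℕ) (hc : 1 ≤ c) (hd : 1 ≤ d) (δ : ℝ) (hδ : (c : ℝ) / d < δ) :
    ∃ K : ℝ, 0 < K ∧ LoopTime (fun p => K * (p : ℝ) ^ δ) (FF c d A C) := by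
  have hd0 : (0 : ℝ) < d := by exact_mod_cast hd
  have hcd0 : (0 : ℝ) ≤ (c : ℝ) / d := by positivity
  set η : ℝ := δ - (c : ℝ) / d with hη
  have hη0 : 0 < η := by rw [hη]; linarith
  have hl2 : 0 < Real.log 2 := Real.log_pos (by norm_num)
  have hδ0 : 0 < δ := by linarith
  refine ⟨2 * (1 / (η * Real.log 2) + 2), by positivity, ?_⟩
  refine LoopTime.of_typed (σ := St) ini (stp c d) (fin c d) (outp A C) poly_ini (poly_stp c d)
    (poly_fin c d) (poly_outp A C) (4 * c + 100) fun p => ?_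
  have hY := Yf_iff (c := c) (p := p) hd
  have hE := fin_end hY
  have hex : ∃ t, fin c d ((stp c d)^[t] (ini p)) = true := ⟨_, hE.2⟩
  classical
  set t := Nat.find hex with ht
  have hft : fin c d ((stp c d)^[t] (ini p)) = true := Nat.find_spec hex
  have htle : t ≤ tm p (Yf c d p) (Yf c d p - 1) := Nat.find_min' hex hE.2
  have hsame : (stp c d)^[tm p (Yf c d p) (Yf c d p - 1)] (ini p) = (stp c d)^[t] (ini p) := by
    obtain ⟨k, hk⟩ := Nat.exists_eq_add_of_le htle
    rw [hk, Nat.add_comm, Function.iterate_add_apply, iter_fix hft]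
  have hstop : ∀ s, s ≤ t → (fin c d ((stp c d)^[s] (ini p)) = true ↔ s = t) := by
    intro s hs
    constructor
    · intro h
      by_contra hne
      exact Nat.find_min hex (by omega : s < t) h
    · rintro rfl
      exact hft
  refine ⟨t, ?_, fun s hs => ⟨?_, hstop s hs⟩, ?_⟩
  · rcases Nat.lt_or_ge p 2 with hp | hp
    · -- small `p`
      have : t = 0 := by
        have h0 : fin c d ((stp c d)^[0] (ini p)) = true := by
          unfold fin ini
          simp only [Function.iterate_zero, id, decide_eq_true_eq]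
          have h1 : p ^ c ≤ 1 := by
            calc p ^ c ≤ 1 ^ c := Nat.pow_le_pow_left (by omega) c
              _ = 1 := one_pow c
          have h2 : 2 ^ 1 ≤ 2 ^ d := Nat.pow_le_pow_right (by norm_num) hd
          omega
        have := Nat.find_min' hex h0
        omega
      rw [this]
      simp only [Nat.cast_zero]
      positivity
    · have hp1 : (1 : ℝ) ≤ p := by exact_mod_cast (by omega : 1 ≤ p)
      have h1 := tm_le p (Yf c d p) (Yf c d p - 1)
      have hinv := inv_iter (c := c) (d := d) hp hY (tm p (Yf c d p) (Yf c d p - 1))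
      have hlen := hinv.length_le
      rw [hE.1] at hlen
      simp only at hlen
      have h2 : t ≤ (Yf c d p + 1) * (p.size + 1) := by
        calc t ≤ _ := htle
          _ ≤ Yf c d p - 1 + (Yf c d p + 1) * (MS p (Yf c d p) (Yf c d p - 1)).2.length := h1
          _ ≤ (Yf c d p + 1) + (Yf c d p + 1) * p.size :=
              Nat.add_le_add (by omega) (Nat.mul_le_mul_left _ hlen)
          _ = _ := by ring
      have h3 : (t : ℝ) ≤ ((Yf c d p : ℝ) + 1) * ((p.size : ℝ) + 1) := by exact_mod_cast h2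
      have h4 : (1 : ℝ) ≤ (p : ℝ) ^ ((c : ℝ) / d) := Real.one_le_rpow hp1 hcd0
      have h5 := Yf_le (c := c) (p := p) hd
      have h6 := size_le_rpow hη0 (by omega : 1 ≤ p)
      have hpδ : (p : ℝ) ^ δ = (p : ℝ) ^ ((c : ℝ) / d) * (p : ℝ) ^ η := by
        rw [← Real.rpow_add (by linarith)]
        congr 1
        rw [hη]; ring
      calc (t : ℝ) ≤ ((Yf c d p : ℝ) + 1) * ((p.size : ℝ) + 1) := h3
        _ ≤ (2 * (p : ℝ) ^ ((c : ℝ) / d)) * ((1 / (η * Real.log 2) + 2) * (p : ℝ) ^ η) := by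
            apply mul_le_mul (by linarith) h6 (by positivity) (by positivity)
        _ = 2 * (1 / (η * Real.log 2) + 2) * (p : ℝ) ^ δ := by
            rw [hpδ]; ring
  · rcases Nat.lt_or_ge p 2 with hp | hp
    · have hfix : (stp c d)^[s] (ini p) = ini p := by
        have h0 : fin c d (ini p) = true := by
          unfold fin ini
          simp only [decide_eq_true_eq]
          have h1 : p ^ c ≤ 1 := by
            calc p ^ c ≤ 1 ^ c := Nat.pow_le_pow_left (by omega) c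
              _ = 1 := one_pow c
          have h2 : 2 ^ 1 ≤ 2 ^ d := Nat.pow_le_pow_right (by norm_num) hd
          omega
        exact iter_fix h0 s
      rw [hfix]
      have h100 : sz (ini p) ≤ 100 := sz_ini p hp
      calc sz (ini p) ≤ 100 := h100
        _ ≤ (p.size + (4 * c + 100)) ^ 1 := by rw [pow_one]; omega
        _ ≤ _ := Nat.pow_le_pow_right (by omega) (by omega)
    · exact (inv_iter (c := c) (d := d) hp hY s).sz_le hp Yf_le_pow
  · rw [← hsame]
    rfl

theorem length_FF {c d : ℕ} (hd : 1 ≤ d) (A C p : ℕ) : (FF c d A C p).length = p.size ^ C := by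
  rw [FF_eq hd]
  exact length_candsS _ _ _

end Pool.Agent.D0H57.PR
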