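import Pool.Agent.D0H57.PR.Alg

set_option autoImplicit false

/-!
# The run of the loop
-/

namespace Pool.Agent.D0H57.PR

open Pool.Agent.NPC Pool.Agent.H595R2.PR Pool.Agent.R562.PR

/-- the cofactor and the list after the numbers `2, …, j + 1` -/
def MS (p Y : ℕ) : ℕ → ℕ × List ℕ
  | 0 => (p - 1, [])
  | j + 1 => if (MS p Y j).1 % (j + 2) = 0 then
      (strip (j + 2) p.size (MS p Y j).1, best p p.size Y (j + 2) :: (MS p Y j).2)
    else MS p Y j

/-- the time after the numbers `2, …, j + 1` -/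
def tm (p Y : ℕ) : ℕ → ℕ
  | 0 => 0
  | j + 1 => tm p Y j + if (MS p Y j).1 % (j + 2) = 0 then Y + 1 else 1

theorem session {c d p Y m l : ℕ} (hY : ∀ y : ℕ, y ^ d ≤ p ^ c ↔ y ≤ Y) (hl : l ≤ Y)
    (hm : m % l = 0) (S : List ℕ) : ∀ k : ℕ, k ≤ Y →
    (stp c d)^[k] (p, m, l, 1, md p 1, S) =
      (p, m, l, k + 1, ((List.range k).map fun i => pw p (i + 1) (strip l p.size (p - 1))).foldl
        (fun b x => if better p p.size l b x then x else b) (md p 1), S) := by
  intro k
  induction k with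
  | zero => intro _; rfl
  | succ k ih =>
    intro hk
    rw [Function.iterate_succ_apply', ih (by omega)]
    unfold stp
    simp only
    rw [if_pos ((hY l).2 hl), if_pos hm, if_pos ((hY (k + 1)).2 hk), List.range_succ,
      List.map_append, List.foldl_append]
    rfl

theorem session_end {c d p Y m l : ℕ} (hY : ∀ y : ℕ, y ^ d ≤ p ^ c ↔ y ≤ Y) (hl : l ≤ Y)
    (hm : m % l = 0) (S : List ℕ) :
    (stp c d)^[Y + 1] (p, m, l, 1, md p 1, S) =
      (p, strip l p.size m, l + 1, 1, md p 1, best p p.size Y l :: S) := by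
  rw [Function.iterate_succ_apply', session hY hl hm S Y le_rfl]
  unfold stp
  simp only
  rw [if_pos ((hY l).2 hl), if_pos hm, if_neg (fun h => by have := (hY (Y + 1)).1 h; omega)]
  rfl

theorem run {c d p Y : ℕ} (hY : ∀ y : ℕ, y ^ d ≤ p ^ c ↔ y ≤ Y) : ∀ j : ℕ, j + 1 ≤ Y →
    (stp c d)^[tm p Y j] (ini p) = (p, (MS p Y j).1, j + 2, 1, md p 1, (MS p Y j).2) := by
  intro j
  induction j with
  | zero => intro _; rfl
  | succ j ih =>
    intro hj
    have h := ih (by omega)
    unfold tm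
    by_cases hm : (MS p Y j).1 % (j + 2) = 0
    · rw [if_pos hm, Nat.add_comm, Function.iterate_add_apply, h,
        session_end hY (by omega) hm]
      rw [MS, if_pos hm]
    · rw [if_neg hm, Nat.add_comm, Function.iterate_add_apply, h, Function.iterate_one]
      unfold stp
      simp only
      rw [if_pos ((hY (j + 2)).2 (by omega)), if_neg hm, MS, if_neg hm]

theorem tm_le (p Y : ℕ) : ∀ j : ℕ, tm p Y j ≤ j + (Y + 1) * (MS p Y j).2.length := by
  intro j
  induction j with
  | zero => simp [tm]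
  | succ j ih =>
    unfold tm
    by_cases hm : (MS p Y j).1 % (j + 2) = 0
    · rw [if_pos hm, MS, if_pos hm, List.length_cons]
      nlinarith
    · rw [if_neg hm, MS, if_neg hm]
      omega

/-- the state after the last number -/
def jend (Y : ℕ) : ℕ := Y - 1

theorem fin_end {c d p Y : ℕ} (hY : ∀ y : ℕ, y ^ d ≤ p ^ c ↔ y ≤ Y) :
    (stp c d)^[tm p Y (Y - 1)] (ini p) =
        (p, (MS p Y (Y - 1)).1, (Y - 1) + 2, 1, md p 1, (MS p Y (Y - 1)).2) ∧
      fin c d ((stp c d)^[tm p Y (Y - 1)] (ini p)) = true := by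
  have h : (stp c d)^[tm p Y (Y - 1)] (ini p) =
        (p, (MS p Y (Y - 1)).1, (Y - 1) + 2, 1, md p 1, (MS p Y (Y - 1)).2) := by
    rcases Nat.eq_zero_or_pos Y with h | h
    · subst h
      rfl
    · exact run hY (Y - 1) (by omega)
  refine ⟨h, ?_⟩
  rw [h]
  unfold fin
  rw [decide_eq_true_eq]
  by_contra hcon
  push Not at hcon
  have := (hY (Y - 1 + 2)).1 hcon
  omega

theorem stp_fix {c d : ℕ} {s : St} (h : fin c d s = true) : stp c d s = s := by
  unfold fin at h
  rw [decide_eq_true_eq] at h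
  unfold stp
  rw [if_neg (by omega)]

theorem iter_fix {c d : ℕ} {s : St} (h : fin c d s = true) (k : ℕ) : (stp c d)^[k] s = s := by
  induction k with
  | zero => rfl
  | succ k ih => rw [Function.iterate_succ_apply', ih, stp_fix h]

/-- the invariant -/
structure Inv (p Y : ℕ) (s : St) : Prop where
  e1 : s.1 = p
  e2 : 1 ≤ s.2.1
  e3 : 2 ^ s.2.2.2.2.2.length * s.2.1 ≤ p
  e4 : 2 ≤ s.2.2.1
  e5 : s.2.2.1 ≤ Y + 2
  e6 : s.2.2.2.1 ≤ Y + 1
  e7 : s.2.2.2.2.1 ≤ max p 1
  e8 : ∀ y ∈ s.2.2.2.2.2, y ≤ max p 1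

theorem strip_pos {l n m : ℕ} (hm : 1 ≤ m) (hl : 1 ≤ l) : 1 ≤ strip l n m := by
  induction n generalizing m with
  | zero => exact hm
  | succ n ih =>
    unfold strip at *
    rw [Function.iterate_succ_apply]
    apply ih
    split_ifs with h
    · exact Nat.div_pos (Nat.le_of_dvd hm (Nat.dvd_of_mod_eq_zero h)) hl
    · exact hm

theorem strip_le (l n m : ℕ) : strip l n m ≤ m := by
  induction n generalizing m with
  | zero => exact le_rfl
  | succ n ih =>
    unfold strip at *
    rw [Function.iterate_succ_apply]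
    refine (ih _).trans ?_
    split_ifs with h
    · exact Nat.div_le_self _ _
    · exact le_rfl

theorem strip_half {l n m : ℕ} (hn : 1 ≤ n) (hl : 2 ≤ l) (h : m % l = 0) :
    2 * strip l n m ≤ m := by
  obtain ⟨n, rfl⟩ : ∃ k, n = k + 1 := ⟨n - 1, by omega⟩
  have h1 : strip l (n + 1) m = strip l n (m / l) := by
    unfold strip
    rw [Function.iterate_succ_apply, if_pos h]
  rw [h1]
  have h2 := strip_le l n (m / l)
  have h3 : l * (m / l) = m := Nat.mul_div_cancel' (Nat.dvd_of_mod_eq_zero h)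
  nlinarith

theorem inv_ini {p Y : ℕ} (hp : 2 ≤ p) : Inv p Y (ini p) where
  e1 := rfl
  e2 := by unfold ini; simp only; omega
  e3 := by unfold ini; simp
  e4 := le_rfl
  e5 := by unfold ini; simp
  e6 := by unfold ini; simp
  e7 := NPC.H595POL.md_le _ _
  e8 := by unfold ini; simp

theorem inv_stp {c d p Y : ℕ} (hp : 2 ≤ p) (hY : ∀ y : ℕ, y ^ d ≤ p ^ c ↔ y ≤ Y) {s : St}
    (h : Inv p Y s) : Inv p Y (stp c d s) := by
  obtain ⟨q, m, l, x, b, S⟩ := s
  obtain ⟨e1, e2, e3, e4, e5, e6, e7, e8⟩ := h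
  simp only at e1 e2 e3 e4 e5 e6 e7 e8
  subst e1
  have hsz : 1 ≤ q.size := by
    have : 0 < q.size := Nat.size_pos.2 (by omega)
    omega
  unfold stp
  simp only
  by_cases h1 : l ^ d ≤ q ^ c
  · rw [if_pos h1]
    have hl := (hY l).1 h1
    by_cases h2 : m % l = 0
    · rw [if_pos h2]
      by_cases h3 : x ^ d ≤ q ^ c
      · rw [if_pos h3]
        have hx := (hY x).1 h3
        refine ⟨rfl, e2, e3, e4, e5, ?_, ?_, e8⟩
        · simp only; omega
        · simp only
          split_ifs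
          · exact NPC.H595POL.pw_le _ _ _
          · exact e7
      · rw [if_neg h3]
        refine ⟨rfl, strip_pos e2 (by omega), ?_, ?_, ?_, ?_, NPC.H595POL.md_le _ _, ?_⟩
        · simp only [List.length_cons]
          have := strip_half (n := q.size) hsz e4 h2
          calc 2 ^ (S.length + 1) * strip l q.size m = 2 ^ S.length * (2 * strip l q.size m) := by
                ring
            _ ≤ 2 ^ S.length * m := Nat.mul_le_mul_left _ this
            _ ≤ q := e3
        · simp only; omega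
        · simp only; omega
        · simp only; omega
        · simp only [List.mem_cons, forall_eq_or_imp]
          exact ⟨e7, e8⟩
    · rw [if_neg h2]
      refine ⟨rfl, e2, e3, ?_, ?_, ?_, NPC.H595POL.md_le _ _, e8⟩
      · simp only; omega
      · simp only; omega
      · simp only; omega
  · rw [if_neg h1]
    exact ⟨rfl, e2, e3, e4, e5, e6, e7, e8⟩

theorem inv_iter {c d p Y : ℕ} (hp : 2 ≤ p) (hY : ∀ y : ℕ, y ^ d ≤ p ^ c ↔ y ≤ Y) (k : ℕ) :
    Inv p Y ((stp c d)^[k] (ini p)) := by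
  induction k with
  | zero => exact inv_ini hp
  | succ k ih => rw [Function.iterate_succ_apply']; exact inv_stp hp hY ih

theorem Inv.length_le {p Y : ℕ} {s : St} (h : Inv p Y s) : s.2.2.2.2.2.length ≤ p.size := by
  have h1 : 2 ^ s.2.2.2.2.2.length ≤ p := by
    calc 2 ^ s.2.2.2.2.2.length = 2 ^ s.2.2.2.2.2.length * 1 := (mul_one _).symm
      _ ≤ 2 ^ s.2.2.2.2.2.length * s.2.1 := Nat.mul_le_mul_left _ h.e2
      _ ≤ p := h.e3
  have h2 : 2 ^ s.2.2.2.2.2.length < 2 ^ p.size := lt_of_le_of_lt h1 (Nat.lt_size_self p)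
  exact ((Nat.pow_lt_pow_iff_right (by norm_num)).1 h2).le

/-- the length of the code of a state -/
theorem Inv.sz_le {p Y c : ℕ} {s : St} (hp : 2 ≤ p) (h : Inv p Y s) (hYp : Y ≤ p ^ c) :
    sz s ≤ (p.size + (4 * c + 100)) ^ (4 * c + 100) := by
  obtain ⟨q, m, l, x, b, S⟩ := s
  have hlen := h.length_le
  obtain ⟨e1, e2, e3, e4, e5, e6, e7, e8⟩ := h
  simp only at e1 e2 e3 e4 e5 e6 e7 e8 hlen
  subst e1
  set n := q.size with hn
  have hmax : max q 1 = q := max_eq_left (by omega)
  rw [hmax] at e7 e8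
  have hm : m ≤ q := by
    calc m = 1 * m := (one_mul m).symm
      _ ≤ 2 ^ S.length * m := Nat.mul_le_mul_right _ (Nat.one_le_two_pow)
      _ ≤ q := e3
  have s1 : sz q ≤ 4 * n + 1 := sz_nat_le q
  have s2 : sz m ≤ 8 * n + 2 := (sz_nat_mono_le hm).trans (by omega)
  have s5 : sz b ≤ 8 * n + 2 := (sz_nat_mono_le e7).trans (by omega)
  -- numbers up to `Y + 2`
  have hbig : ∀ y : ℕ, y ≤ Y + 2 → sz y ≤ 4 * ((c + 1) * n + 1) + 1 := by
    intro y hy
    refine (sz_nat_le y).trans ?_
    have h1 : y < 2 ^ ((c + 1) * n + 1) := by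
      have h2 : q ^ c ≤ 2 ^ (n * c) := by
        rw [pow_mul]
        exact Nat.pow_le_pow_left (Nat.lt_size_self q).le c
      have h3 : 2 ≤ 2 ^ n := by
        have : q < 2 ^ n := Nat.lt_size_self q
        omega
      have h4 : 1 ≤ 2 ^ (n * c) := Nat.one_le_two_pow
      calc y ≤ q ^ c + 2 := by omega
        _ ≤ 2 ^ (n * c) + 2 := by omega
        _ < 2 * (2 ^ n * 2 ^ (n * c)) := by nlinarith
        _ = 2 ^ ((c + 1) * n + 1) := by
          rw [← pow_add, ← pow_succ']
          congr 1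
          ring
    have h2 : y.size ≤ (c + 1) * n + 1 := Nat.size_le.2 h1
    exact Nat.add_le_add_right (Nat.mul_le_mul_left 4 h2) 1
  have s3 := hbig l e5
  have s4 := hbig x (by omega)
  have s6 : sz S ≤ n * (8 * n + 3) + 1 := by
    refine (sz_le_length_mul S (8 * n + 2) fun y hy => ?_).trans ?_
    · exact (sz_nat_mono_le (e8 y hy)).trans (by omega)
    · exact Nat.add_le_add_right (Nat.mul_le_mul_right (8 * n + 2 + 1) hlen) 1
  simp only [sz_pair]
  have hn1 : 1 ≤ n := by
    have : 0 < q.size := Nat.size_pos.2 (by omega)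
    omega
  have htot : sz q + (sz m + (sz l + (sz x + (sz b + sz S + 1) + 1) + 1) + 1) + 1 ≤
      (n + (4 * c + 100)) ^ 3 := by
    have e : (n + (4 * c + 100)) ^ 3 = (n + (4 * c + 100)) * (n + (4 * c + 100)) *
      (n + (4 * c + 100)) := by ring
    have h1 : 8 * c * n + 8 * n ≤ (n + (4 * c + 100)) * (n + (4 * c + 100)) := by nlinarith
    have h2 : n * (8 * n + 3) ≤ 8 * ((n + (4 * c + 100)) * (n + (4 * c + 100))) := by nlinarith
    have h3 : 28 * n + 100 ≤ (n + (4 * c + 100)) * (n + (4 * c + 100)) := by nlinarith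
    have h4 : 10 * ((n + (4 * c + 100)) * (n + (4 * c + 100))) ≤ (n + (4 * c + 100)) ^ 3 := by
      rw [e, mul_comm]
      exact Nat.mul_le_mul_left _ (by omega)
    have h5 : 4 * ((c + 1) * n + 1) + 1 = 4 * c * n + 4 * n + 5 := by ring
    rw [h5] at s3 s4
    nlinarith
  exact htot.trans (Nat.pow_le_pow_right (by omega) (by omega))

end Pool.Agent.D0H57.PR
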