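import Pool.Agent.D0H57.PR.Burg
import Pool.Agent.D0H57.PR.GenY

set_option autoImplicit false

/-!
# The index of the group generated by `-1, 1, …, Y`
-/

namespace Pool.Agent.D0H57.PR

open Finset Pool.Agent.H471R4.BW Pool.Agent.H595R2.PR

/-- a product of numbers up to `Y` which is smaller than `p` belongs to the group -/
theorem smooth_mem {p Y : ℕ} [Fact p.Prime] (hY : Y < p) (s : ℕ) (hs : s ≠ 0)
    (h : ∀ l : ℕ, l.Prime → l ∣ s → l ≤ Y) :
    ∃ u : (ZMod p)ˣ, (u : ZMod p) = (s : ZMod p) ∧ u ∈ Gam p Y := by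
  induction s using Nat.recOnMul with
  | zero => exact absurd rfl hs
  | one => exact ⟨1, by simp, Subgroup.one_mem _⟩
  | prime l hl =>
    have hlY := h l hl dvd_rfl
    have hne : ((l : ℕ) : ZMod p) ≠ 0 := by
      intro h0
      rw [ZMod.natCast_eq_zero_iff] at h0
      have := Nat.le_of_dvd hl.pos h0
      omega
    exact ⟨Units.mk0 _ hne, rfl, Pool.Agent.TH668.PR.mem_Gam hl.one_le hlY _ rfl⟩
  | mul a b ha hb =>
    have ha0 : a ≠ 0 := fun h0 => hs (by rw [h0, zero_mul])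
    have hb0 : b ≠ 0 := fun h0 => hs (by rw [h0, mul_zero])
    obtain ⟨u, hu1, hu2⟩ := ha ha0 fun l hl hd => h l hl (hd.mul_right _)
    obtain ⟨v, hv1, hv2⟩ := hb hb0 fun l hl hd => h l hl (hd.mul_left _)
    exact ⟨u * v, by push_cast; rw [hu1, hv1], Subgroup.mul_mem _ hu2 hv2⟩

/-- The index is bounded if `Y` is at least a power of `p`. -/
theorem index_bounded (δ : ℝ) (hδ : 0 < δ) : ∃ I p₀ : ℕ, ∀ p : ℕ, p₀ ≤ p → p.Prime → ∀ Y : ℕ,
    (p : ℝ) ^ δ < (Y : ℝ) + 1 → Y < p → (Gam p Y).index ≤ I := by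
  obtain ⟨c, hc, D0, hD⟩ := smo (min δ 1) (lt_min hδ one_pos) (min_le_right _ _)
  refine ⟨⌈1 / c⌉₊, max D0 2, fun p hp hpp Y hY hYp => ?_⟩
  haveI : Fact p.Prime := ⟨hpp⟩
  have hp0 : (1 : ℝ) ≤ p := by exact_mod_cast hpp.one_le
  obtain ⟨S, hS1, hS2⟩ := hD p (le_of_max_le_left hp)
  classical
  have hmem : ∀ s ∈ S, ∃ u : (ZMod p)ˣ, (u : ZMod p) = (s : ZMod p) ∧ u ∈ Gam p Y := by
    intro s hs
    obtain ⟨h1, h2, h3⟩ := hS1 s hs
    refine smooth_mem hYp s (by omega) fun l hl hd => ?_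
    have h4 := h3 l hl hd
    have h5 : (l : ℝ) < (Y : ℝ) + 1 := lt_of_le_of_lt
      (h4.trans (Real.rpow_le_rpow_of_exponent_le hp0 (min_le_left _ _))) hY
    have h6 : l < Y + 1 := by exact_mod_cast h5
    omega
  choose! f hf1 hf2 using hmem
  have hcard : S.card ≤ Nat.card (Gam p Y) := by
    have h1 : S.card ≤ (univ.filter fun u : (ZMod p)ˣ => u ∈ Gam p Y).card := by
      refine Finset.card_le_card_of_injOn f (fun s hs => ?_) fun s hs s' hs' he => ?_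
      · simp only [coe_filter, Set.mem_ofPred_eq, mem_univ, true_and]
        exact hf2 s hs
      · have h2 : (s : ZMod p) = (s' : ZMod p) := by rw [← hf1 s hs, ← hf1 s' hs', he]
        rw [ZMod.natCast_eq_natCast_iff', Nat.mod_eq_of_lt (hS1 s hs).2.1,
          Nat.mod_eq_of_lt (hS1 s' hs').2.1] at h2
        exact h2
    rwa [← Fintype.card_subtype, ← Nat.card_eq_fintype_card] at h1
  have h1 := Pool.Agent.TH668.PR.card_mul_index (Gam p Y)
  have h2 : (S.card : ℝ) * ((Gam p Y).index : ℝ) ≤ p := by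
    have h3 : S.card * (Gam p Y).index ≤ p := by
      calc S.card * (Gam p Y).index ≤ Nat.card (Gam p Y) * (Gam p Y).index :=
            Nat.mul_le_mul_right _ hcard
        _ = p - 1 := h1
        _ ≤ p := Nat.sub_le _ _
    exact_mod_cast h3
  have hi0 : (0 : ℝ) ≤ ((Gam p Y).index : ℝ) := Nat.cast_nonneg _
  have h3 : c * p * ((Gam p Y).index : ℝ) ≤ p := (mul_le_mul_of_nonneg_right hS2 hi0).trans h2
  have h4 : ((Gam p Y).index : ℝ) ≤ 1 / c := by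
    rw [le_div_iff₀ hc]
    have : (p : ℝ) * (((Gam p Y).index : ℝ) * c) ≤ p * 1 := by nlinarith
    exact le_of_mul_le_mul_left this (by linarith)
  exact_mod_cast h4.trans (Nat.le_ceil _)

/-- `t` does not divide the index if `Y` is at least `p ^ δ` with `δ > ex t`. -/
theorem no_prime (t : ℕ) (ht : t.Prime) (δ : ℝ) (hδ : ex t < δ) : ∃ p₀ : ℕ, ∀ p : ℕ, p₀ ≤ p →
    p.Prime → ∀ Y : ℕ, (p : ℝ) ^ δ < (Y : ℝ) + 1 → Y < p → ¬ t ∣ (Gam p Y).index := by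
  obtain ⟨N0, hN0⟩ := order_t t ht ((δ - ex t) / 2) (by linarith)
  -- `p ^ δ - 1` exceeds the bound
  have hev : ∀ᶠ x : ℝ in Filter.atTop, (1 : ℝ) + 1 ≤ x ^ ((δ - ex t) / 2) :=
    (tendsto_rpow_atTop (by linarith)).eventually_ge_atTop _
  obtain ⟨x0, hx0⟩ := Filter.eventually_atTop.1 hev
  refine ⟨max N0 (max ⌈x0⌉₊ 2), fun p hp hpp Y hY hYp hdvd => ?_⟩
  haveI : Fact p.Prime := ⟨hpp⟩
  have hp2 : 2 ≤ p := hpp.two_le
  have hp1 : (1 : ℝ) ≤ p := by exact_mod_cast hpp.one_le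
  have hxp : x0 ≤ (p : ℝ) := by
    have : ⌈x0⌉₊ ≤ p := ((le_max_left _ _).trans (le_max_right _ _)).trans hp
    exact (Nat.le_ceil _).trans (by exact_mod_cast this)
  have htp : t ∣ p - 1 := Pool.Agent.TH668.PR.dvd_sub_one _ hdvd
  have hq0 : 0 < (p - 1) / t := Nat.div_pos (Nat.le_of_dvd (by omega) htp) ht.pos
  have hg : (p - 1) / t ∣ p - 1 := Nat.div_dvd_of_dvd htp
  have hlt : (p - 1) / t < p - 1 := Nat.div_lt_self (by omega) ht.one_lt
  obtain ⟨t', ht', hd', χ, hχ1, hχt, hχ⟩ := hch p ((p - 1) / t) hg hlt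
  have hquot : (p - 1) / ((p - 1) / t) = t := Nat.div_div_self htp (by omega)
  rw [hquot] at hd'
  have htt : t' = t := (Nat.prime_dvd_prime_iff_eq ht' ht).1 hd'
  subst htt
  have hy := hN0 p (le_of_max_le_left hp) hpp htp χ hχ1 hχt Y fun l hl hlY => by
    apply hχ
    obtain ⟨u, hu1, hu2⟩ := smooth_mem hYp l hl.ne_zero fun q hq hd => by
      rw [(Nat.prime_dvd_prime_iff_eq hq hl).1 hd]; exact hlY
    have h2 := Pool.Agent.TH668.PR.pow_div (Gam p Y) ht.pos hdvd hu2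
    rw [← hu1, ← Units.val_pow_eq_pow_val, h2, Units.val_one]
  have hlow : (p : ℝ) ^ (ex t' + (δ - ex t') / 2) * 2 ≤ (p : ℝ) ^ δ := by
    have e : (p : ℝ) ^ δ = (p : ℝ) ^ (ex t' + (δ - ex t') / 2) * (p : ℝ) ^ ((δ - ex t') / 2) := by
      rw [← Real.rpow_add (by linarith)]
      congr 1
      ring
    rw [e]
    apply mul_le_mul_of_nonneg_left _ (by positivity)
    have := hx0 p hxp
    linarith
  have h1 : (1 : ℝ) ≤ (p : ℝ) ^ (ex t' + (δ - ex t') / 2) :=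
    Real.one_le_rpow hp1 (by have := ex_pos t'; linarith)
  linarith

theorem ex_anti {s t : ℕ} (hs : 0 < s) (hst : s ≤ t) : ex t ≤ ex s := by
  unfold ex
  apply one_div_le_one_div_of_le (by positivity)
  have h1 : (0 : ℝ) < s := by exact_mod_cast hs
  have h2 : (s : ℝ) ≤ t := by exact_mod_cast hst
  have h3 : 1 / (t : ℝ) ≤ 1 / s := one_div_le_one_div_of_le h1 h2
  have := Real.exp_le_exp.2 (show 1 - 1 / (s : ℝ) ≤ 1 - 1 / t by linarith)
  linarith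

/-- The prime factors of the index are smaller than `t₀` if `Y` is at least `p ^ δ` with
`δ > ex t₀`. -/
theorem index_primes (t₀ : ℕ) (ht₀ : 0 < t₀) (δ : ℝ) (hδ : ex t₀ < δ) : ∃ p₀ : ℕ, ∀ p : ℕ, p₀ ≤ p →
    p.Prime → ∀ Y : ℕ, (p : ℝ) ^ δ < (Y : ℝ) + 1 → Y < p → ∀ t : ℕ, t.Prime → t₀ ≤ t →
      ¬ t ∣ (Gam p Y).index := by
  have hδ0 : 0 < δ := lt_trans (ex_pos t₀) hδ
  obtain ⟨I, p₁, hI⟩ := index_bounded δ hδ0
  have h : ∀ t : ℕ, ∃ p₀ : ℕ, t.Prime → t₀ ≤ t → ∀ p : ℕ, p₀ ≤ p →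
    p.Prime → ∀ Y : ℕ, (p : ℝ) ^ δ < (Y : ℝ) + 1 → Y < p → ¬ t ∣ (Gam p Y).index := by
    intro t
    by_cases h1 : t.Prime ∧ t₀ ≤ t
    · obtain ⟨p₀, h2⟩ := no_prime t h1.1 δ (lt_of_le_of_lt (ex_anti ht₀ h1.2) hδ)
      exact ⟨p₀, fun _ _ => h2⟩
    · exact ⟨0, fun h2 h3 => absurd ⟨h2, h3⟩ h1⟩
  choose f hf using h
  refine ⟨max p₁ ((range (I + 1)).sup f), fun p hp hpp Y hY hYp t ht htt hd => ?_⟩
  haveI : Fact p.Prime := ⟨hpp⟩
  have h1 := hI p (le_of_max_le_left hp) hpp Y hY hYp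
  have hi0 : 0 < (Gam p Y).index := Nat.pos_of_ne_zero Subgroup.index_ne_zero_of_finite
  have h2 : t ≤ I := (Nat.le_of_dvd hi0 hd).trans h1
  have h3 : f t ≤ p := (Finset.le_sup (f := f) (mem_range.2 (by omega : t < I + 1))).trans
    (le_of_max_le_right hp)
  exact hf t ht htt p h3 hpp Y hY hYp hd

end Pool.Agent.D0H57.PR
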